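import Pool.Agent.H17.CR.Strip
import Pool.Agent.H6.CP.Basic

set_option autoImplicit false

/-! Modules StPsi, StTele. -/

namespace Pool.Agent.H17.CR

open Finset ComplexConjugate H95.CP Pool.Agent.H98.CP

lemma psi_eq {M : ℕ} (h : ℕ → G M → ℝ) (b : ℕ) : Psi h b = Rz h 0 b := by
  funext x
  unfold Psi Rz
  rw [Finset.range_eq_Ico]

lemma lom_ge (j : ℕ) : 1 / 2 ≤ lom j := by
  unfold lom
  have h1 := lo_gt j
  have h2 := lo_gt (j + 1)
  linarith

lemma him_le (j : ℕ) : him j ≤ 3 := by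
  unfold him
  have h1 := hi_lt j
  have h2 := hi_lt (j + 1)
  linarith

lemma leak {j J l0 : ℕ} (hJ : Jok j J l0) : Leak J (lom j) (him j) (lo (j + 1)) (hi (j + 1)) := by
  obtain ⟨h1, _, _⟩ := hJ
  have h2 : 1000 * ((j : ℝ) + 2) ^ 2 ≤ 8 ^ J := by exact_mod_cast h1
  have hj : (0 : ℝ) ≤ j := Nat.cast_nonneg j
  have hp : (0 : ℝ) < ((j : ℝ) + 1) * ((j : ℝ) + 2) := by positivity
  have h3 : (4 : ℝ) / 8 ^ J ≤ 1 / 4 * (1 / (((j : ℝ) + 1) * ((j : ℝ) + 2))) := by
    rw [div_mul_div_comm, one_mul, div_le_div_iff₀ (by positivity) (by positivity)]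
    nlinarith
  have h4 := hi_sub j
  have h5 := lo_sub j
  have h6 : 1 / (2 * (((j : ℝ) + 1) * ((j : ℝ) + 2))) = 1 / 2 * (1 / (((j : ℝ) + 1) * ((j : ℝ) + 2))) := by
    rw [div_mul_div_comm, one_mul]
  rw [h6] at h5
  set q : ℝ := 1 / (((j : ℝ) + 1) * ((j : ℝ) + 2)) with hq
  have hq0 : 0 < q := by positivity
  refine ⟨?_, ?_, (lo_gt _).le, (hi_lt _).le⟩
  · unfold him
    linarith
  · unfold lom
    linarith

lemma Jok.two {j J l0 : ℕ} (hJ : Jok j J l0) : 2 ≤ J := by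
  obtain ⟨_, h2, h3⟩ := hJ
  omega

lemma rd {M u j J l0 sg : ℕ} {act : Finset ℕ} {h : ℕ → G M → ℝ}
    (hRS : RS M u j J l0 sg act h) (hL : Lg M j) (hJ : 2 ≤ J) :
    RD (M + u) J (lom j) (him j) act h := by
  refine ⟨hJ, lom_ge j, him_pos.le, him_le j, hRS.off, hRS.gap, ?_, ?_, ?_⟩
  · intro a ha
    have := (hRS.rng a ha).2.1
    omega
  · intro a ha
    obtain ⟨η, hη, hx⟩ := hRS.adm a ha
    have hr := hRS.rng a ha
    obtain ⟨l1, l2⟩ := H6.CP.Rg_large hr hL
    obtain ⟨d1, d2⟩ := H6.CP.Rg_dvd hr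
    have he : (fun x => (h a x : ℂ)) = fun x => (hh j a (M + u - a) η x : ℂ) := by
      funext x; rw [hx x]
    rw [he]
    intro k hk
    by_contra hcon
    refine hk (co2_hh_zero l1 l2 d1 d2 η k fun hH => hcon ?_)
    exact ⟨hH.1.1.le, hH.1.2.le, hH.2.1.le, hH.2.2.le⟩
  · exact H6.CP.half M u j J l0 sg act h hRS hL

section

variable {L : ℕ} [NeZero L]

/-- `E Ψ = 1`, without condition on the end -/
lemma RD.mean' {N0 J : ℕ} {lo hi : ℝ} {act : Finset ℕ} {h : ℕ → GG L → ℝ}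
    (D : RD N0 J lo hi act h) {lo1 hi1 : ℝ} (hK : Leak J lo hi lo1 hi1) (b : ℕ) :
    ER (fun x => Rz h 0 b x) = 1 := by
  have hz : ∀ i, ER (fun x => Rz h 0 i x * h i x) = 0 := by
    intro i
    by_cases hi : i ∈ act
    · have h1 := D.sp4 hK (D.lt i hi).le (D.free hi) (D.sp i hi)
      have h2 : co2 (fun x => (Rz h 0 i x : ℂ) * (h i x : ℂ)) 0 = 0 := by
        refine spc_eq_zero h1 ?_
        rintro ⟨i', _, hk⟩
        have h3 := hk.1
        have h4 := hK.lo1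
        have h5 := pow_pos8 i
        simp only [Prod.fst_zero, fa_zero, Nat.cast_zero] at h3
        nlinarith
      unfold co2 at h2
      have h3 : (fun x : GG L => ((Rz h 0 i x : ℂ) * (h i x : ℂ)) * conj (ch2 0 x))
          = fun x => ((Rz h 0 i x * h i x : ℝ) : ℂ) := by
        funext x; rw [ch2_zero_left]; push_cast; simp
      rw [h3, E_ofReal] at h2
      exact_mod_cast h2
    · have : (fun x => Rz h 0 i x * h i x) = fun _ => (0 : ℝ) := by
        funext x; rw [D.zero i hi x, mul_zero]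
      rw [this]
      exact ER_const 0
  have h1 : (fun x => Rz h 0 b x) = fun x => (∑ i ∈ Ico 0 b, Rz h 0 i x * h i x) + 1 := by
    funext x
    rw [← rz_tel h (Nat.zero_le b) x]
    ring
  rw [h1, ER_add, ER_const]
  have h2 : ER (fun x => ∑ i ∈ Ico 0 b, Rz h 0 i x * h i x)
      = ∑ i ∈ Ico 0 b, ER (fun x => Rz h 0 i x * h i x) := by
    unfold ER
    rw [Finset.sum_comm, Finset.mul_sum]
  rw [h2, Finset.sum_eq_zero fun i _ => hz i, zero_add]

/-- telescoping pairing, without condition on the end -/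
lemma RD.pair' {N0 J : ℕ} {lo hi : ℝ} {act : Finset ℕ} {h : ℕ → GG L → ℝ}
    (D : RD N0 J lo hi act h) {lo1 hi1 : ℝ} (hK : Leak J lo hi lo1 hi1) (b : ℕ)
    (g : GG L → ℝ) {A : ℝ} (hg : ∀ x, |g x| ≤ A) :
    ∑ i ∈ Ico 0 b, ER (fun x => g x * (Rz h 0 i x * h i x)) ≤ 2 * A := by
  have h1 : ∑ i ∈ Ico 0 b, ER (fun x => g x * (Rz h 0 i x * h i x))
      = ER (fun x => g x * (Rz h 0 b x - 1)) := by
    have : ∀ s : Finset ℕ, ∑ i ∈ s, ER (fun x => g x * (Rz h 0 i x * h i x))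
        = ER (fun x => ∑ i ∈ s, g x * (Rz h 0 i x * h i x)) := by
      intro s
      unfold ER
      rw [← Finset.mul_sum, Finset.sum_comm]
    rw [this]
    congr 1
    funext x
    rw [rz_tel h (Nat.zero_le b) x, Finset.mul_sum]
  rw [h1]
  have hA : 0 ≤ A := (abs_nonneg _).trans (hg 0)
  calc ER (fun x => g x * (Rz h 0 b x - 1)) ≤ ER (fun x => A * Rz h 0 b x + A) := by
        refine ER_mono fun x => ?_
        have h2 := abs_le.1 (hg x)
        have h3 := rz_nonneg D.le 0 b x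
        nlinarith
    _ = 2 * A := by
        rw [ER_add, ER_const, ER_mul_left, D.mean' hK b]
        ring

end

theorem stPsi : StPsi := by
  intro M u j J l0 sg act h hRS hL hJ b
  have D := rd hRS hL (Jok.two hJ)
  rw [psi_eq]
  exact ⟨fun x => rz_nonneg D.le 0 b x, D.mean' (leak hJ) b⟩

theorem stTele : StTele := by
  intro M u j J l0 sg act h hRS hL hJ F A hF n
  have D := rd hRS hL (Jok.two hJ)
  have h1 := D.pair' (leak hJ) n F hF
  rw [← Finset.range_eq_Ico] at h1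
  simp only [psi_eq]
  exact h1

end Pool.Agent.H17.CR
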