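import Pool.Agent.H17.CR.Samp

set_option autoImplicit false

/-! Modules StWl, StTloc. -/

namespace Pool.Agent.H17.CR

open Finset ComplexConjugate H95.CP Pool.Agent.H98.CP

section

variable {L : ℕ} [NeZero L]

/-- a frequency in the band of `b` minus a frequency of `Ψ - 1` is far -/
lemma RD.far_sub {N0 J : ℕ} {lo hi : ℝ} {act : Finset ℕ} {h : ℕ → GG L → ℝ}
    (D : RD N0 J lo hi act h) {lo1 hi1 : ℝ} (hK : Leak J lo hi lo1 hi1) {b i : ℕ} {k m : GG L}
    (hk : bnd N0 lo hi b k) (hm1 : nr N0 J lo hi b i m)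
    (hm2 : (fa m.1 : ℝ) * 8 ^ J ≤ 8 * hi / 7 * 8 ^ b) : farr N0 lo1 hi1 b i (k - m) := by
  have hx : lo1 * 8 ^ b ≤ fa (k - m).1 ∧ (fa (k - m).1 : ℝ) ≤ hi1 * 8 ^ b := by
    refine leak_arith_x hK D.hi3 hk.1 hk.2.1 hm2 ?_
    have e1 : (fa (k.1 - m.1) : ℝ) ≤ fa k.1 + fa m.1 := by exact_mod_cast fa_sub_le _ _
    have e2 : (fa k.1 : ℝ) ≤ fa (k.1 - m.1) + fa m.1 := by
      have := fa_add_le (k.1 - m.1) m.1
      rw [sub_add_cancel] at this
      exact_mod_cast this
    simp only [Prod.fst_sub]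
    rw [abs_le]
    constructor <;> linarith
  refine ⟨hx.1, hx.2, ?_⟩
  refine leak_arith hK D.hi0 D.hi3 hm1.1 hm1.2 ?_
  have e0 := hk.2.2.2
  have e1 : (fa (k.2 - m.2) : ℝ) ≤ fa k.2 + fa m.2 := by exact_mod_cast fa_sub_le _ _
  have e2 : (fa m.2 : ℝ) ≤ fa (k.2 - m.2) + fa k.2 := by
    have := fa_sub_le (k.2) (k.2 - m.2)
    rw [sub_sub_cancel] at this
    have h2 : fa m.2 ≤ fa (k.2 - m.2) + fa k.2 := by omega
    exact_mod_cast h2
  simp only [Prod.snd_sub]
  rw [abs_le]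
  constructor <;> linarith

/-- localisation: only far frequencies of `f` are seen -/
lemma RD.loc0 {N0 J : ℕ} {lo hi : ℝ} {act : Finset ℕ} {h : ℕ → GG L → ℝ}
    (D : RD N0 J lo hi act h) {lo1 hi1 : ℝ} (hK : Leak J lo hi lo1 hi1) {b : ℕ}
    (hb : b ≤ N0) (hf : Free act J b) {V : GG L → ℂ} (hV : spc V (bnd N0 lo hi b))
    {f : GG L → ℂ} (hff : spc f (fun k => ¬ ∃ i ∈ act, i < b ∧ farr N0 lo1 hi1 b i k)) (x : GG L) :
    conv V (fun x => ((Rz h 0 b x - 1 : ℝ) : ℂ) * f x) x = 0 := by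
  have h1 := D.sp3 (Nat.zero_le b) hb hf
  have h2 := D.sp3x 0 hf
  have h3 : spc (fun x => ((Rz h 0 b x - 1 : ℝ) : ℂ)) (fun k => (∃ i ∈ act, 0 ≤ i ∧ i < b ∧
      nr N0 J lo hi b i k) ∧ (fa k.1 : ℝ) * 8 ^ J ≤ 8 * hi / 7 * 8 ^ b) :=
    fun k hk => ⟨h1 k hk, h2 k hk⟩
  refine conv_eq_zero hV (spc_mul h3 hff) (fun k hk hcon => ?_) x
  obtain ⟨l, m, ⟨⟨i, hia, _, hib, hl⟩, hl2⟩, hm, rfl⟩ := hcon
  apply hm
  have h4 := D.far_sub hK hk hl hl2
  rw [add_sub_cancel_left] at h4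
  exact ⟨i, hia, hib, h4⟩

lemma exists_nat_mul {V : ℕ} (hV : 8 ^ V ∣ L) {w : ZMod L} (hw : 8 ^ V ∣ fa w) :
    ∃ i : ℕ, w = ((i * 8 ^ V : ℕ) : ZMod L) := by
  have h1 : ((w.val : ℤ) : ZMod L) = ((w.valMinAbs : ℤ) : ZMod L) := by simp
  rw [ZMod.intCast_eq_intCast_iff_dvd_sub] at h1
  have h2 : ((8 ^ V : ℕ) : ℤ) ∣ w.valMinAbs := by
    unfold fa at hw
    exact Int.natCast_dvd.mpr hw
  have h3 : ((8 ^ V : ℕ) : ℤ) ∣ (L : ℤ) := by exact_mod_cast hV
  have h4 := h3.trans h1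
  have h5 : ((8 ^ V : ℕ) : ℤ) ∣ (w.val : ℤ) := by
    have := dvd_sub h2 h4
    rwa [sub_sub_cancel] at this
  have h6 : 8 ^ V ∣ w.val := by exact_mod_cast h5
  obtain ⟨i, hi⟩ := h6
  refine ⟨i, ?_⟩
  rw [mul_comm i, ← hi]
  simp

end

lemma mem_DD {M j b c : ℕ} {k : G M} :
    k ∈ DD M j b c ↔ Band j b (fa k.1) ∧ Band j c (fa k.2) := by
  unfold DD
  simp

lemma elg_free {M u J l0 : ℕ} {act : Finset ℕ} {b : ℕ} (hE : Elg M u J l0 act b) : Free act J b :=
  fun a ha _ => hE.gap a ha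

lemma spc_vs {M u j b : ℕ} (hr : Rg M u b) (hL : Lg M j) :
    spc (L := LL M) (cx (vs j b (M + u - b))) (bnd (M + u) (lom j) (him j) b) := by
  obtain ⟨l1, l2⟩ := H6.CP.Rg_large hr hL
  obtain ⟨h1, h2, h3, _⟩ := hr
  have hLL : 64 * 8 ^ M = LL M := by unfold LL; rw [pow_add]; omega
  have e1 : 8 ^ b ≤ 8 ^ M := Nat.pow_le_pow_right (by norm_num) (by omega)
  have e2 : 8 ^ (M + u - b) ≤ 8 ^ M := Nat.pow_le_pow_right (by norm_num) (by omega)
  intro k hk
  have h4 := co2_vs (L := LL M) l1 l2 (by omega) (by omega) k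
  have h5 : co2 (cx (vs j b (M + u - b))) k
      = (ka j b (fa k.1) : ℂ) * (ka j (M + u - b) (fa k.2) : ℂ) := h4
  rw [h5] at hk
  have h6 : Half j b (fa k.1) := by
    by_contra hcon
    exact hk (by rw [ka_zero l1 hcon]; simp)
  have h7 : Half j (M + u - b) (fa k.2) := by
    by_contra hcon
    exact hk (by rw [ka_zero l2 hcon]; simp)
  exact ⟨h6.1.le, h6.2.le, h7.1.le, h7.2.le⟩

lemma spc_vsq {M u j b : ℕ} (hr : Rg M u b) (hL : Lg M j) :
    spc (L := LL M) (fun x => (vsq j b (M + u - b) x : ℂ)) (fun k => fa k.2 < 3 * 8 ^ (M + u - b)) := by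
  obtain ⟨l1, l2⟩ := H6.CP.Rg_large hr hL
  obtain ⟨h1, h2, h3, _⟩ := hr
  have hLL : 64 * 8 ^ M = LL M := by unfold LL; rw [pow_add]; omega
  have e1 : 8 ^ b ≤ 8 ^ M := Nat.pow_le_pow_right (by norm_num) (by omega)
  have e2 : 8 ^ (M + u - b) ≤ 8 ^ M := Nat.pow_le_pow_right (by norm_num) (by omega)
  intro k hk
  by_contra hcon
  apply hk
  rw [co2_vsq (L := LL M) l1 l2 (by omega) (by omega) k, kq_zero l2 (by omega)]
  simp

/-- strips of the factors -/
lemma stripBd {M u j J l0 sg : ℕ} {act : Finset ℕ} {h : ℕ → G M → ℝ}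
    (hRS : RS M u j J l0 sg act h) (hL : Lg M j) (hJ : Jok j J l0) (b : ℕ) :
    StripBd (M + u) J (18 * 8 ^ sg) act h b := by
  intro i hi hib V d hVd hJd om hom1 hom2 x
  have D := rd hRS hL (Jok.two hJ)
  have hK := leak hJ
  have hJ2 := Jok.two hJ
  have hr := hRS.rng i hi
  have hr' := hr
  obtain ⟨r1, r2, r3, r4⟩ := hr
  obtain ⟨η, ⟨hη1, hη2⟩, hx⟩ := hRS.adm i hi
  have hc : M + u - i = V + d := hVd.symm
  have d1 : 8 ^ (i + 2) ∣ LL M := Nat.pow_dvd_pow 8 (by omega)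
  have d2 : 8 ^ (V + 2) ∣ LL M := Nat.pow_dvd_pow 8 (by omega)
  have d3 : 8 ^ V ∣ LL M := Nat.pow_dvd_pow 8 (by omega)
  have hLL : 64 * 8 ^ M = LL M := by unfold LL; rw [pow_add]; omega
  have e1 : 8 ^ V ≤ 8 ^ M := Nat.pow_le_pow_right (by norm_num) (by omega)
  have h8 : 0 < 8 ^ V := by positivity
  -- the function
  have hfun : (fun x => (Rz h 0 i x : ℂ) * (h i x : ℂ))
      = cx (fun x => Psi h i x * hh j i (M + u - i) η x) := by
    funext x
    unfold cx
    rw [psi_eq, hx x]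
    push_cast
    rfl
  have hspc := D.sp4 hK (D.lt i hi).le (D.free hi) (D.sp i hi)
  have hsp : spc (yconv (fun t => sk (5 * 8 ^ V) (15 * 8 ^ V) om t)
      (fun x => (Rz h 0 i x : ℂ) * (h i x : ℂ)))
      (fun k => fa k.1 < 4 * 8 ^ i ∧ fa (k.2 - om) < 15 * 8 ^ V) := by
    refine spc_mono (spc_yconv _ hspc) fun k hk => ?_
    obtain ⟨⟨i', _, hk1⟩, hk2⟩ := hk
    constructor
    · have h3 : (fa k.1 : ℝ) < 4 * 8 ^ i := by
        have h4 := hk1.2.1
        have h5 := hi_lt (j + 1)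
        have h6 : (0 : ℝ) < 8 ^ i := by positivity
        nlinarith
      exact_mod_cast h3
    · by_contra hcon
      apply hk2
      rw [co_sk (by omega) (by omega), mu_zero (by omega) (by omega)]
      simp
  have hgrid : ∀ p : Fin (8 ^ (i + 2)) × Fin (8 ^ (V + 2)),
      ‖yconv (fun t => sk (5 * 8 ^ V) (15 * 8 ^ V) om t)
        (fun x => (Rz h 0 i x : ℂ) * (h i x : ℂ)) (gp2 _ _ p)‖ ≤ 2 * (8 ^ sg / 2 ^ d) := by
    intro p
    have hWS : WS (M + u - i) V om := by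
      refine ⟨exists_nat_mul d3 hom1, ?_⟩
      unfold EE
      rw [hc, Nat.add_sub_cancel_left]
      exact hom2
    have h3 := hη2 V (by omega) om hWS p
    have h4 : M + u - i - V = d := by omega
    rw [h4] at h3
    unfold strip pt at h3
    rw [hfun]
    have h5 := Complex.norm_le_abs_re_add_abs_im
      (yconv (fun t => sk (5 * 8 ^ V) (15 * 8 ^ V) om t)
        (cx (fun x => Psi h i x * hh j i (M + u - i) η x)) (gp2 (8 ^ (i + 2)) (8 ^ (V + 2)) p))
    linarith [h3.1, h3.2]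
  have hfin := sample d1 d2 hsp hgrid x
  refine hfin.trans (le_of_eq ?_)
  ring

theorem stWl : StWl := by
  intro M u j J l0 sg act h b hRS hL hJ hE lam
  have D := rd hRS hL (Jok.two hJ)
  have hK := leak hJ
  have hJ2 := Jok.two hJ
  have hr := hE.rng
  have hr' := hr
  obtain ⟨r1, r2, r3, r4⟩ := hr
  obtain ⟨l1, l2⟩ := H6.CP.Rg_large hr' hL
  have hf := elg_free hE
  have hbN : b ≤ M + u := by omega
  have hLL : 64 * 8 ^ M = LL M := by unfold LL; rw [pow_add]; omega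
  have e1 : 8 ^ b ≤ 8 ^ M := Nat.pow_le_pow_right (by norm_num) (by omega)
  have e2 : 8 ^ (M + u - b) ≤ 8 ^ M := Nat.pow_le_pow_right (by norm_num) (by omega)
  have hwl : wl j b (M + u - b) (Psi h b) lam
      = conv (cx (vs j b (M + u - b))) (fun x => ((Rz h 0 b x - 1 : ℝ) : ℂ) * ch2 lam x) := by
    unfold wl loc
    congr 1
    funext x
    rw [psi_eq]
    push_cast
    rfl
  rw [hwl]
  by_cases hfar : ∃ i ∈ act, i < b ∧ farr (M + u) (lo (j + 1)) (hi (j + 1)) b i lam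
  · right
    obtain ⟨i, hia, hib, hk⟩ := hfar
    refine ⟨i, hia, ?_, ?_⟩
    · exact mem_DD.2 ⟨⟨hk.1, hk.2.1⟩, hk.2.2⟩
    · intro x
      have ri := hRS.rng i hia
      obtain ⟨ri1, ri2, ri3, ri4⟩ := ri
      have hgapib := hf i hia hib
      have hVsp : spc (L := LL M) (cx (vs j b (M + u - b))) (fun k => fa k.2 < 3 * 8 ^ (M + u - b)) := by
        refine spc_mono (spc_vs hr' hL) fun k hk => ?_
        have h3 : (fa k.2 : ℝ) < 3 * 8 ^ (M + u - b) := by
          have h4 := hk.2.2.2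
          have h5 : him j < 3 := by
            unfold him
            have := hi_lt j
            have := hi_lt (j + 1)
            linarith
          have h6 : (0 : ℝ) < 8 ^ (M + u - b) := by positivity
          nlinarith
        exact_mod_cast h3
      have h3 := D.w_all hK hbN hf hVsp (V' := vsq j b (M + u - b))
        (fun x => by
          unfold cx
          rw [Complex.norm_real]
          exact abs_vs_le l1 l2 x)
        (spc_vsq hr' hL) (l0 := l0) (M := M) r2.le hJ.2.1 hJ.2.2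
        (fun a ha _ => hRS.alw a ha) (T := 18 * 8 ^ sg) (by positivity) (stripBd hRS hL hJ b)
        hia hib
        (by
          have : 8 ^ (M + u - (i + J)) ≤ 8 ^ M := Nat.pow_le_pow_right (by norm_num) (by omega)
          omega)
        (fun V hV => Nat.pow_dvd_pow 8 (by omega)) hk.2.2.1 hk.2.2.2 x
      refine h3.trans ?_
      have h4 : ER (vsq j b (M + u - b)) ≤ CV j := mean_vsq (L := LL M) l1 l2 (by omega) (by omega)
      have h5 : (0 : ℝ) < 2 ^ H67.CM.gapLen J (b - i) := by positivity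
      calc ER (vsq j b (M + u - b)) * (2 * (18 * 8 ^ sg) / 2 ^ H67.CM.gapLen J (b - i))
          ≤ CV j * (2 * (18 * 8 ^ sg) / 2 ^ H67.CM.gapLen J (b - i)) :=
            mul_le_mul_of_nonneg_right h4 (by positivity)
        _ = 36 * (CV j * 8 ^ sg / 2 ^ H67.CM.gapLen J (b - i)) := by ring
        _ ≤ 64 * (CV j * 8 ^ sg / 2 ^ H67.CM.gapLen J (b - i)) := by
            have := CV_pos j
            exact mul_le_mul_of_nonneg_right (by norm_num) (by positivity)
        _ = 64 * CV j * 8 ^ sg / 2 ^ H67.CM.gapLen J (b - i) := by ring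
  · left
    refine D.loc0 hK hbN hf (spc_vs hr' hL) ?_
    intro k hk
    have := spc_ch2 lam k hk
    rw [this]
    exact hfar

/-- the bands of different columns are disjoint -/
lemma band_disj {j j' b b' n : ℕ} (h1 : Band j b n) (h2 : Band j' b' n) : b = b' := by
  have a1 := h1.lt
  have a2 := h1.gt
  have a3 := h2.lt
  have a4 := h2.gt
  rcases lt_trichotomy b b' with h | h | h
  · exfalso
    have : 8 ^ b * 8 ^ 1 ≤ 8 ^ b' := by
      rw [← pow_add]; exact Nat.pow_le_pow_right (by norm_num) (by omega)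
    omega
  · exact h
  · exfalso
    have : 8 ^ b' * 8 ^ 1 ≤ 8 ^ b := by
      rw [← pow_add]; exact Nat.pow_le_pow_right (by norm_num) (by omega)
    omega

theorem stTloc : StTloc := by
  intro M J l0 sg act h b hRS hL hJ hE tb ε x
  have D := rd hRS hL (Jok.two hJ)
  have hK := leak hJ
  have hJ2 := Jok.two hJ
  have hr := hE.rng
  have hr' := hr
  obtain ⟨r1, r2, r3, r4⟩ := hr
  obtain ⟨l1, l2⟩ := H6.CP.Rg_large hr' hL
  have hf := elg_free hE
  have hbN : b ≤ M + 0 := by omega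
  have hLL : 64 * 8 ^ M = LL M := by unfold LL; rw [pow_add]; omega
  have e1 : 8 ^ b ≤ 8 ^ M := Nat.pow_le_pow_right (by norm_num) (by omega)
  have e2 : 8 ^ (M + 0 - b) ≤ 8 ^ M := Nat.pow_le_pow_right (by norm_num) (by omega)
  have hM0 : M + 0 - b = M - b := by omega
  -- spectrum of the sum
  have hTs : spc (L := LL M) (fun z => (tb.T ε z : ℂ))
      (fun k => ∃ a ∈ Ico 1 M, k ∈ DD M 0 a (M - a)) := by
    have h1 : (fun z => (tb.T ε z : ℂ)) = fun z => ∑ a ∈ Ico 1 M, (tb.t a (ε a) z : ℂ) := by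
      funext z
      unfold TB.T
      push_cast
      rfl
    rw [h1]
    refine spc_sum _ _ _ fun a ha => ?_
    rw [mem_Ico] at ha
    exact fun k hk => tb.spec a (ε a) k ha.1 ha.2 hk
  have hsplit : cx (fun z => tb.T ε z * Psi h b z)
      = fun z => (tb.T ε z : ℂ) + ((Rz h 0 b z - 1 : ℝ) : ℂ) * (tb.T ε z : ℂ) := by
    funext z
    unfold cx
    rw [psi_eq]
    push_cast
    ring
  unfold loc
  rw [hsplit, conv_add, ← hM0]
  have hz : conv (cx (vs 0 b (M + 0 - b)))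
      (fun z => ((Rz h 0 b z - 1 : ℝ) : ℂ) * (tb.T ε z : ℂ)) x = 0 := by
    refine D.loc0 hK hbN hf (spc_vs hr' hL) ?_ x
    intro k hk hcon
    obtain ⟨a, ha, hka⟩ := hTs k hk
    obtain ⟨i, hia, hib, hfar⟩ := hcon
    rw [mem_Ico] at ha
    have hk2 := mem_DD.1 hka
    have hba : b = a := band_disj (j := 0 + 1) ⟨hfar.1, hfar.2.1⟩ hk2.1
    have ri := hRS.rng i hia
    have hci : M + 0 - i = M - a := band_disj (j := 0 + 1) hfar.2.2 hk2.2
    have := ri.2.1
    omega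
  rw [hz, add_zero]
  -- the low-pass part
  have hconv : conv (cx (vs 0 b (M + 0 - b))) (fun z => (tb.T ε z : ℂ)) = cx (tb.t b (ε b)) := by
    apply ext_co2
    intro k
    rw [co2_conv]
    have hco : co2 (cx (vs 0 b (M + 0 - b))) k
        = (ka 0 b (fa k.1) : ℂ) * (ka 0 (M + 0 - b) (fa k.2) : ℂ) :=
      co2_vs (L := LL M) l1 l2 (by omega) (by omega) k
    have hTk : co2 (fun z => (tb.T ε z : ℂ)) k = ∑ a ∈ Ico 1 M, co2 (cx (tb.t a (ε a))) k := by
      have h1 : (fun z => (tb.T ε z : ℂ)) = fun z => ∑ a ∈ Ico 1 M, cx (tb.t a (ε a)) z := by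
        funext z
        unfold TB.T cx
        push_cast
        rfl
      rw [h1, co2_sum]
    have hb1 : 1 ≤ b := by
      have : 0 < M := by omega
      have h2 := Nat.size_pos.2 this
      omega
    by_cases hkb : k ∈ DD M 0 b (M - b)
    · have hk2 := mem_DD.1 hkb
      rw [hco, ka_one l1 hk2.1, hM0, ka_one (by rw [← hM0]; exact l2) hk2.2, hTk,
        Finset.sum_eq_single b]
      · simp
      · intro a ha hab
        rw [mem_Ico] at ha
        by_contra hne
        have hka := tb.spec a (ε a) k ha.1 ha.2 hne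
        have hk3 := mem_DD.1 hka
        exact hab (band_disj hk3.1 hk2.1)
      · intro hn
        exact absurd (mem_Ico.2 ⟨hb1, r2⟩) hn
    · have h0 : co2 (cx (tb.t b (ε b))) k = 0 := by
        by_contra hne
        exact hkb (tb.spec b (ε b) k hb1 r2 hne)
      rw [h0, hTk, hco, Finset.mul_sum]
      refine Finset.sum_eq_zero fun a ha => ?_
      rw [mem_Ico] at ha
      by_cases hne : co2 (cx (tb.t a (ε a))) k = 0
      · rw [hne, mul_zero]
      · have hka := tb.spec a (ε a) k ha.1 ha.2 hne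
        have hk3 := mem_DD.1 hka
        have hab : ¬ Half 0 b (fa k.1) := by
          intro hH
          have := band_disj hH.band hk3.1
          subst this
          exact hkb hka
        rw [ka_zero l1 hab]
        simp
  rw [hconv]
  rfl

end Pool.Agent.H17.CR
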