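import Pool.Agent.H17.CR.ConB

set_option autoImplicit false

/-! Module StAtom. -/

namespace Pool.Agent.H17.CR

open Finset ComplexConjugate H95.CP Pool.Agent.H98.CP

section

variable {L : ℕ} [NeZero L]

lemma co_refl_sub (K : ZMod L → ℂ) (x k : ZMod L) :
    co (fun s => K (x - s)) k = conj (ch k x) * co K (-k) := by
  unfold co
  have h : ∑ t : ZMod L, K (x - t) * conj (ch k t)
      = conj (ch k x) * ∑ t : ZMod L, K t * conj (ch (-k) t) := by
    rw [Finset.mul_sum]
    refine Fintype.sum_equiv (Equiv.subLeft x) _ _ fun s => ?_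
    simp only [Equiv.subLeft_apply]
    rw [ch_neg_left, Complex.conj_conj, ch_sub_right]
    have h1 : conj (ch k x) * ch k x = 1 := by
      rw [Complex.conj_mul', ch_norm]; norm_num
    calc K (x - s) * conj (ch k s) = K (x - s) * ((conj (ch k x) * ch k x) * conj (ch k s)) := by
          rw [h1, one_mul]
      _ = _ := by ring
  rw [h]
  ring

/-- the kernel of the strip functional at the point `p` -/
noncomputable def dk0 (K : ZMod L → ℂ) (p x : GG L) : ℂ :=
  (if x.1 = p.1 then (L : ℂ) else 0) * K (p.2 - x.2)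

/-- the smooth version -/
noncomputable def dk1 (b : ℕ) (K : ZMod L → ℂ) (p x : GG L) : ℂ :=
  (vp (4 * 8 ^ b) (8 * 8 ^ b) (p.1 - x.1) : ℂ) * K (p.2 - x.2)

lemma co2_dk0 (K : ZMod L → ℂ) (p k : GG L) :
    co2 (dk0 K p) k = conj (ch k.1 p.1) * (conj (ch k.2 p.2) * co K (-k.2)) := by
  have h := co2_prod (fun s : ZMod L => if s = p.1 then (L : ℂ) else 0) (fun t => K (p.2 - t)) k
  have h1 : co (fun s : ZMod L => if s = p.1 then (L : ℂ) else 0) k.1 = conj (ch k.1 p.1) := by
    unfold co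
    simp only [ite_mul, zero_mul]
    rw [Finset.sum_ite_eq' Finset.univ p.1]
    simp only [Finset.mem_univ, if_true]
    have := L_ne (L := L)
    field_simp
  rw [h1, co_refl_sub] at h
  exact h

lemma co2_dk1 {b : ℕ} (hb : 2 * (8 * 8 ^ b) ≤ L) (K : ZMod L → ℂ) (p k : GG L) :
    co2 (dk1 b K p) k = (mu (4 * 8 ^ b) (8 * 8 ^ b) (fa k.1) : ℂ) * co2 (dk0 K p) k := by
  have h8 : 0 < 8 ^ b := by positivity
  have h := co2_prod (fun s : ZMod L => (vp (4 * 8 ^ b) (8 * 8 ^ b) (p.1 - s) : ℂ))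
    (fun t => K (p.2 - t)) k
  have h1 : co (fun s : ZMod L => (vp (4 * 8 ^ b) (8 * 8 ^ b) (p.1 - s) : ℂ)) k.1
      = conj (ch k.1 p.1) * (mu (4 * 8 ^ b) (8 * 8 ^ b) (fa k.1) : ℂ) := by
    have h2 := co_refl_sub (fun s : ZMod L => (vp (4 * 8 ^ b) (8 * 8 ^ b) s : ℂ)) p.1 k.1
    rw [co_vp (by omega) hb, fa_neg] at h2
    exact h2
  rw [h1, co_refl_sub] at h
  rw [co2_dk0]
  have h3 : co2 (dk1 b K p) k = conj (ch k.1 p.1) * (mu (4 * 8 ^ b) (8 * 8 ^ b) (fa k.1) : ℂ)
      * (conj (ch k.2 p.2) * co K (-k.2)) := h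
  rw [h3]
  ring

lemma yconv_eq_E (K : ZMod L → ℂ) (f : GG L → ℂ) (p : GG L) :
    yconv K f p = E (fun x => f x * dk0 K p x) := by
  unfold yconv E dk0
  rw [Fintype.sum_prod_type]
  have h1 : ∀ s : ZMod L, ∑ t : ZMod L, f (s, t) * ((if s = p.1 then (L : ℂ) else 0) * K (p.2 - t))
      = if s = p.1 then ∑ t : ZMod L, f (s, t) * (L * K (p.2 - t)) else 0 := by
    intro s
    split_ifs with hs
    · rfl
    · simp
  simp only [h1]
  rw [Finset.sum_ite_eq' Finset.univ p.1]
  simp only [Finset.mem_univ, if_true]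
  have h2 : ∑ t : ZMod L, f (p.1, t) * ((L : ℂ) * K (p.2 - t))
      = L * ∑ s : ZMod L, K s * f (p.1, p.2 - s) := by
    rw [Finset.mul_sum]
    refine Finset.sum_equiv (Equiv.subLeft p.2) (by simp) fun t _ => ?_
    simp only [Equiv.subLeft_apply, sub_sub_cancel]
    ring
  rw [h2]
  have := L_ne (L := L)
  field_simp

/-- replacing the product with the sharp kernel by a smooth one -/
lemma co2_replace {b c V : ℕ} {w : ZMod L} (hb : 2 * (8 * 8 ^ b) ≤ L) (hc : 2 * (8 * 8 ^ c) ≤ L)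
    (hV : 2 * (15 * 8 ^ V) ≤ L) (hVc : 15 * 8 ^ V ≤ 8 ^ c) {P : GG L → ℂ}
    (hP : spc P (fun k => fa k.1 ≤ 8 ^ b)) (p : GG L) {k : GG L} (hk1 : fa k.1 ≤ 3 * 8 ^ b)
    (hk2 : fa k.2 ≤ 3 * 8 ^ c) :
    co2 (fun x => P x * dk0 (fun t => sk (5 * 8 ^ V) (15 * 8 ^ V) w t) p x) k
      = co2 (fun x => yconv (fun t => sk (4 * 8 ^ c) (8 * 8 ^ c) w t) P x
          * dk1 b (fun t => sk (5 * 8 ^ V) (15 * 8 ^ V) w t) p x) k := by
  have h8 : 0 < 8 ^ b := by positivity
  have h8c : 0 < 8 ^ c := by positivity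
  have h8V : 0 < 8 ^ V := by positivity
  rw [co2_mul, co2_mul]
  refine Finset.sum_congr rfl fun l _ => ?_
  rw [co2_dk1 hb, co2_yconv, co_sk (by omega) hc]
  by_cases hl : co2 P l = 0
  · rw [hl]; ring
  · have hl1 := hP l hl
    have e1 := fa_sub_le k.1 l.1
    have e2 : (k - l).1 = k.1 - l.1 := rfl
    rw [e2, mu_one (by omega : 4 * 8 ^ b < 8 * 8 ^ b) (by omega)]
    by_cases hd : co2 (dk0 (fun t => sk (5 * 8 ^ V) (15 * 8 ^ V) w t) p) (k - l) = 0
    · rw [hd]; ring
    · rw [co2_dk0, co_sk (by omega) hV] at hd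
      have h3 := right_ne_zero_of_mul (right_ne_zero_of_mul hd)
      have h4 : fa (-(k - l).2 - w) < 15 * 8 ^ V := by
        by_contra hcon
        apply h3
        rw [mu_zero (by omega) (by omega)]
        simp
      have h5 : fa (l.2 - w) ≤ 4 * 8 ^ c := by
        have e3 := fa_add_le (-(k - l).2 - w) k.2
        have e4 : -(k - l).2 - w + k.2 = l.2 - w := by
          rw [Prod.snd_sub]; ring
        rw [e4] at e3
        omega
      rw [mu_one (by omega) h5]
      push_cast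
      ring

lemma sum_dk1 {b V : ℕ} {w : ZMod L} (hb : 2 * (8 * 8 ^ b) ≤ L) (hV : 2 * (15 * 8 ^ V) ≤ L)
    (p : GG L) :
    ∑ k, ‖co2 (dk1 b (fun t => sk (5 * 8 ^ V) (15 * 8 ^ V) w t) p) k‖ ^ 2
      ≤ (2 * (8 * 8 ^ b)) * (2 * (15 * 8 ^ V)) := by
  have h8 : 0 < 8 ^ b := by positivity
  have h8V : 0 < 8 ^ V := by positivity
  have hm1 : 4 * 8 ^ b < 8 * 8 ^ b := by omega
  have hm2 : 5 * 8 ^ V < 15 * 8 ^ V := by omega
  have h1 : ∀ k : GG L, ‖co2 (dk1 b (fun t => sk (5 * 8 ^ V) (15 * 8 ^ V) w t) p) k‖ ^ 2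
      ≤ mu (4 * 8 ^ b) (8 * 8 ^ b) (fa k.1) * mu (5 * 8 ^ V) (15 * 8 ^ V) (fa (-k.2 - w)) := by
    intro k
    rw [co2_dk1 hb, co2_dk0, co_sk (by omega) hV]
    simp only [norm_mul, Complex.norm_real, RCLike.norm_conj, ch_norm, one_mul]
    have a1 := mu_nonneg hm1 (fa k.1)
    have a2 := mu_le_one hm1 (fa k.1)
    have a3 := mu_nonneg hm2 (fa (-k.2 - w))
    have a4 := mu_le_one hm2 (fa (-k.2 - w))
    rw [Real.norm_of_nonneg a1, Real.norm_of_nonneg a3]
    have a5 : 0 ≤ mu (4 * 8 ^ b) (8 * 8 ^ b) (fa k.1) * mu (5 * 8 ^ V) (15 * 8 ^ V) (fa (-k.2 - w)) :=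
      mul_nonneg a1 a3
    have a6 : mu (4 * 8 ^ b) (8 * 8 ^ b) (fa k.1) * mu (5 * 8 ^ V) (15 * 8 ^ V) (fa (-k.2 - w)) ≤ 1 :=
      mul_le_one₀ a2 a3 a4
    nlinarith
  refine (Finset.sum_le_sum fun k _ => h1 k).trans ?_
  rw [Fintype.sum_prod_type]
  simp only
  rw [← Finset.sum_mul_sum]
  have h2 : ∑ k : ZMod L, mu (5 * 8 ^ V) (15 * 8 ^ V) (fa (-k - w))
      = ∑ k : ZMod L, mu (5 * 8 ^ V) (15 * 8 ^ V) (fa k) := by
    refine Finset.sum_equiv ((Equiv.neg _).trans (Equiv.subRight w)) (by simp) fun k _ => ?_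
    simp
  rw [h2]
  have h3 := sum_mu_le (L := L) hm1
  have h4 := sum_mu_le (L := L) hm2
  push_cast at h3 h4
  refine mul_le_mul h3 h4 (Finset.sum_nonneg fun k _ => mu_nonneg hm2 _) (by positivity)

end

theorem stAtom : StAtom := by
  intro M u j J l0 sg act h b hRS hL hJ hE V hV w p
  have D := rd hRS hL (Jok.two hJ)
  have hK := leak hJ
  have hJ2 := Jok.two hJ
  have hr := hE.rng
  have hr' := hr
  obtain ⟨r1, r2, r3, r4⟩ := hr
  obtain ⟨l1, l2⟩ := H6.CP.Rg_large hr' hL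
  have hf := elg_free hE
  have hbN : b ≤ M + u := by omega
  have hLL : 64 * 8 ^ M = LL M := by unfold LL; rw [pow_add]; omega
  have e1 : 8 ^ b ≤ 8 ^ M := Nat.pow_le_pow_right (by norm_num) (by omega)
  have e2 : 8 ^ (M + u - b) ≤ 8 ^ M := Nat.pow_le_pow_right (by norm_num) (by omega)
  have e3 : 8 ^ V * 8 ^ 2 ≤ 8 ^ (M + u - b) := by
    rw [← pow_add]; exact Nat.pow_le_pow_right (by norm_num) (by omega)
  have p8 : 0 < 8 ^ V := by positivity
  have p8c : 0 < 8 ^ (M + u - b) := by positivity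
  set c := M + u - b with hc
  set K : ZMod (LL M) → ℂ := fun t => sk (5 * 8 ^ V) (15 * 8 ^ V) w t with hKdef
  set P : G M := pt (b + 2) (V + 2) p with hP
  set f : G M → ℂ := fun x => (Psi h b x : ℂ) * dk0 K P x with hfdef
  have hCV := CV_pos j
  refine ⟨fun x => (1 / (2 * (CV j : ℂ))) * loc j b c f x, ?_, ?_, ?_⟩
  · intro η
    unfold strip
    rw [yconv_eq_E]
    have h1 := E_mul_hh (L := LL M) (k := j) (b := b) (c := c) f η
    have h2 : (fun x => cx (fun x => Psi h b x * hh j b c η x) x * dk0 K P x)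
        = fun x => f x * (hh j b c η x : ℂ) := by
      funext x
      simp only [hfdef, cx]
      push_cast
      ring
    rw [h2, h1]
    unfold avg
    rw [← mul_assoc, mul_comm (1 / (2 * (CV j : ℂ))), mul_assoc]
    congr 1
    rw [Finset.mul_sum]
    refine Finset.sum_congr rfl fun i _ => ?_
    unfold loc pt cx
    ring
  · intro k hk
    rw [co2_smul] at hk
    have h1 := right_ne_zero_of_mul hk
    unfold loc at h1
    rw [co2_conv] at h1
    have h2 := left_ne_zero_of_mul h1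
    have h5 : co2 (cx (vs j b c)) k = (ka j b (fa k.1) : ℂ) * (ka j c (fa k.2) : ℂ) :=
      co2_vs (L := LL M) l1 l2 (by omega) (by omega) k
    rw [h5] at h2
    constructor
    · by_contra hcon
      exact h2 (by rw [ka_zero l1 hcon]; simp)
    · by_contra hcon
      exact h2 (by rw [ka_zero l2 hcon]; simp)
  · -- the smooth function
    set F : G M → ℂ := fun x => yconv (fun t => sk (4 * 8 ^ c) (8 * 8 ^ c) w t) (cx (Psi h b)) x
      * dk1 b K P x with hF
    have hPs : spc (cx (Psi h b)) (fun k => fa k.1 ≤ 8 ^ b) := by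
      have h1 := D.sp1' 0 hf
      have h2 : cx (Psi h b) = fun x => (Rz h 0 b x : ℂ) := by
        funext x; unfold cx; rw [psi_eq]
      rw [h2]
      refine spc_mono h1 fun k hk => ?_
      have h3 : (fa k.1 : ℝ) * 8 ^ J ≤ 4 * 8 ^ b := by
        refine hk.trans ?_
        have := him_le j
        have h4 : (0 : ℝ) < 8 ^ b := by positivity
        exact mul_le_mul_of_nonneg_right (by linarith) h4.le
      have h4 : (8 : ℝ) ≤ 8 ^ J := by
        calc (8 : ℝ) = 8 ^ 1 := by norm_num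
          _ ≤ 8 ^ J := pow_le_pow_right₀ (by norm_num) (by omega)
      have h5 : (fa k.1 : ℝ) * 8 ≤ 4 * 8 ^ b :=
        le_trans (mul_le_mul_of_nonneg_left h4 (Nat.cast_nonneg _)) h3
      have h6 : fa k.1 * 8 ≤ 4 * 8 ^ b := by exact_mod_cast h5
      omega
    have hterm : ∀ k, ‖co2 (fun x => (1 / (2 * (CV j : ℂ))) * loc j b c f x) k‖ ^ 2
        ≤ (1 / (2 * CV j)) ^ 2 * ‖co2 F k‖ ^ 2 := by
      intro k
      rw [co2_smul, norm_mul, mul_pow]
      have hn : ‖(1 / (2 * (CV j : ℂ)))‖ = 1 / (2 * CV j) := by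
        rw [norm_div, norm_mul, Complex.norm_real, Real.norm_of_nonneg hCV.le]
        norm_num
      rw [hn]
      refine mul_le_mul_of_nonneg_left ?_ (by positivity)
      unfold loc
      rw [co2_conv]
      have h5 : co2 (cx (vs j b c)) k = (ka j b (fa k.1) : ℂ) * (ka j c (fa k.2) : ℂ) :=
        co2_vs (L := LL M) l1 l2 (by omega) (by omega) k
      rw [h5]
      by_cases hH : Half j b (fa k.1) ∧ Half j c (fa k.2)
      · have hk1 := hH.1.band.lt
        have hk2 := hH.2.band.lt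
        have hrep := co2_replace (L := LL M) (b := b) (c := c) (V := V) (w := w) (by omega)
          (by omega) (by omega) (by omega) hPs P hk1.le hk2.le
        have hff : co2 f k = co2 F k := hrep
        rw [hff, norm_mul, norm_mul, Complex.norm_real, Complex.norm_real]
        have a1 := ka_nonneg l1 (fa k.1)
        have a2 := ka_le_one l1 (fa k.1)
        have a3 := ka_nonneg l2 (fa k.2)
        have a4 := ka_le_one l2 (fa k.2)
        rw [Real.norm_of_nonneg a1, Real.norm_of_nonneg a3]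
        have a6 : ka j b (fa k.1) * ka j c (fa k.2) ≤ 1 := mul_le_one₀ a2 a3 a4
        have a7 : ka j b (fa k.1) * ka j c (fa k.2) * ‖co2 F k‖ ≤ 1 * ‖co2 F k‖ :=
          mul_le_mul_of_nonneg_right a6 (norm_nonneg _)
        rw [one_mul] at a7
        exact pow_le_pow_left₀ (mul_nonneg (mul_nonneg a1 a3) (norm_nonneg _)) a7 2
      · have : (ka j b (fa k.1) : ℂ) * (ka j c (fa k.2) : ℂ) = 0 := by
          rw [not_and_or] at hH
          rcases hH with hH | hH
          · rw [ka_zero l1 hH]; simp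
          · rw [ka_zero l2 hH]; simp
        rw [this, zero_mul, norm_zero, zero_pow (by norm_num)]
        positivity
    -- sup bound of the strip of the product
    have hsup : ∀ x, ‖yconv (fun t => sk (4 * 8 ^ c) (8 * 8 ^ c) w t) (cx (Psi h b)) x‖ ≤ 3 := by
      intro x
      have hm := mean_one_y (L := LL M) (K' := fun t => vq (4 * 8 ^ c) (8 * 8 ^ c) t)
        (D.sp3 (Nat.zero_le b) hbN hf) (fun k hk => by
          obtain ⟨i, hia, _, hib, hk⟩ := hk
          have h5 := (nr_ge hK D.hi0 D.hi3 hk).1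
          have h6 : (1 / 2 : ℝ) * 8 ^ (M + u - i) ≤ fa k.2 :=
            le_trans (mul_le_mul_of_nonneg_right hK.lo1 (by positivity)) h5
          have h7 : 8 ^ (M + u - i) ≤ 2 * fa k.2 := by
            have : (8 : ℝ) ^ (M + u - i) ≤ 2 * fa k.2 := by linarith
            exact_mod_cast this
          have h8 := hf i hia hib
          have h9 : 8 ^ c * 8 ^ 2 ≤ 8 ^ (M + u - i) := by
            rw [← pow_add]
            exact Nat.pow_le_pow_right (by norm_num) (by omega)
          rw [co_vq (by omega) (by omega), mq_zero (by omega) (by omega)]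
          simp) x
      rw [mean_vq (by omega) (by omega)] at hm
      have hm2 : (((8 * 8 ^ c : ℕ) : ℝ) + ((4 * 8 ^ c : ℕ) : ℝ))
          / (((8 * 8 ^ c : ℕ) : ℝ) - ((4 * 8 ^ c : ℕ) : ℝ)) = 3 := by
        push_cast
        have : (0 : ℝ) < 8 ^ c := by positivity
        field_simp
        ring
      rw [hm2] at hm
      rw [← hm]
      unfold yconv
      rw [norm_mul]
      have hn : ‖(1 / ((LL M : ℕ) : ℂ))‖ = 1 / ((LL M : ℕ) : ℝ) := by
        rw [norm_div, Complex.norm_natCast, norm_one]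
      rw [hn]
      refine mul_le_mul_of_nonneg_left ?_ (by positivity)
      refine (norm_sum_le _ _).trans (Finset.sum_le_sum fun s _ => ?_)
      rw [norm_mul]
      refine mul_le_mul (norm_sk_le (by omega) w s) ?_ (norm_nonneg _) (vq_nonneg (by omega) s)
      unfold cx
      rw [Complex.norm_real, psi_eq, Real.norm_of_nonneg (rz_nonneg D.le 0 b _)]
    have hF2 : ∑ k, ‖co2 F k‖ ^ 2 ≤ 9 * ((2 * (8 * 8 ^ b)) * (2 * (15 * 8 ^ V))) := by
      rw [← parseval]
      have h1 : ER (fun x => ‖F x‖ ^ 2) ≤ ER (fun x => 9 * ‖dk1 b K P x‖ ^ 2) := by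
        refine ER_mono fun x => ?_
        simp only [hF]
        rw [norm_mul, mul_pow]
        have h2 := hsup x
        have h3 : ‖yconv (fun t => sk (4 * 8 ^ c) (8 * 8 ^ c) w t) (cx (Psi h b)) x‖ ^ 2 ≤ 9 := by
          have := pow_le_pow_left₀ (norm_nonneg _) h2 2
          linarith
        exact mul_le_mul_of_nonneg_right h3 (by positivity)
      refine h1.trans ?_
      rw [ER_mul_left, parseval]
      exact mul_le_mul_of_nonneg_left (sum_dk1 (by omega) (by omega) P) (by norm_num)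
    calc ∑ k, ‖co2 (fun x => (1 / (2 * (CV j : ℂ))) * loc j b c f x) k‖ ^ 2
        ≤ ∑ k, (1 / (2 * CV j)) ^ 2 * ‖co2 F k‖ ^ 2 := Finset.sum_le_sum fun k _ => hterm k
      _ = (1 / (2 * CV j)) ^ 2 * ∑ k, ‖co2 F k‖ ^ 2 := by rw [Finset.mul_sum]
      _ ≤ (1 / (2 * CV j)) ^ 2 * (9 * ((2 * (8 * 8 ^ b)) * (2 * (15 * 8 ^ V)))) :=
          mul_le_mul_of_nonneg_left hF2 (by positivity)
      _ = (1080 / (CV j) ^ 2) * 8 ^ (b + V) := by
          rw [pow_add]
          field_simp
          ring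
      _ ≤ 1 * 8 ^ (b + V) := by
          refine mul_le_mul_of_nonneg_right ?_ (by positivity)
          rw [div_le_one (by positivity)]
          have h96 : (96 : ℝ) ≤ CV j := by
            unfold CV
            have hj : (0 : ℝ) ≤ j := Nat.cast_nonneg j
            have h1 : (96 : ℝ) ≤ 24 * ((j : ℝ) + 2) ^ 2 := by nlinarith
            nlinarith
          nlinarith
      _ = 8 ^ (b + V) := one_mul _

end Pool.Agent.H17.CR
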