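import Pool.Agent.H17.CR.Spec

/-! Riesz products along columns: spectra and telescoping. -/

namespace Pool.Agent.H17.CR

open Finset ComplexConjugate H95.CP

variable {L : ℕ} [NeZero L]

/-- the partial Riesz product over the columns `a ≤ i < b` -/
noncomputable def Rz (h : ℕ → GG L → ℝ) (a b : ℕ) (x : GG L) : ℝ := ∏ i ∈ Ico a b, (1 + h i x)

/-- the frequency band of the column `i` in the layer `N0` -/
def bnd (N0 : ℕ) (lo hi : ℝ) (i : ℕ) (k : GG L) : Prop :=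
  lo * 8 ^ i ≤ fa k.1 ∧ (fa k.1 : ℝ) ≤ hi * 8 ^ i ∧
    lo * 8 ^ (N0 - i) ≤ fa k.2 ∧ (fa k.2 : ℝ) ≤ hi * 8 ^ (N0 - i)

/-- Riesz data -/
structure RD (N0 J : ℕ) (lo hi : ℝ) (act : Finset ℕ) (h : ℕ → GG L → ℝ) : Prop where
  J1 : 2 ≤ J
  lo2 : 1 / 2 ≤ lo
  hi0 : 0 ≤ hi
  hi3 : hi ≤ 3
  zero : ∀ i, i ∉ act → ∀ x, h i x = 0
  sep : ∀ i ∈ act, ∀ j ∈ act, i < j → i + J ≤ j
  lt : ∀ i ∈ act, i < N0
  sp : ∀ i ∈ act, spc (fun x => (h i x : ℂ)) (bnd N0 lo hi i)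
  le : ∀ i x, |h i x| ≤ 1 / 2

lemma rz_self (h : ℕ → GG L → ℝ) (a : ℕ) (x : GG L) : Rz h a a x = 1 := by simp [Rz]

lemma rz_succ (h : ℕ → GG L → ℝ) {a b : ℕ} (hab : a ≤ b) (x : GG L) :
    Rz h a (b + 1) x = Rz h a b x * (1 + h b x) := by
  unfold Rz
  rw [Finset.prod_Ico_succ_top hab]

lemma rz_mul (h : ℕ → GG L → ℝ) {a b c : ℕ} (hab : a ≤ b) (hbc : b ≤ c) (x : GG L) :
    Rz h a b x * Rz h b c x = Rz h a c x := by
  unfold Rz
  exact Finset.prod_Ico_consecutive _ hab hbc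

lemma rz_one {h : ℕ → GG L → ℝ} {a b : ℕ} (hz : ∀ i, a ≤ i → i < b → ∀ x, h i x = 0) (x : GG L) :
    Rz h a b x = 1 := by
  unfold Rz
  refine Finset.prod_eq_one fun i hi => ?_
  rw [Finset.mem_Ico] at hi
  rw [hz i hi.1 hi.2 x, add_zero]

lemma rz_nonneg {h : ℕ → GG L → ℝ} (hle : ∀ i x, |h i x| ≤ 1 / 2) (a b : ℕ) (x : GG L) :
    0 ≤ Rz h a b x := by
  unfold Rz
  refine Finset.prod_nonneg fun i _ => ?_
  have := (abs_le.1 (hle i x)).1
  linarith

/-- telescoping, last index -/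
lemma rz_tel (h : ℕ → GG L → ℝ) {a b : ℕ} (hab : a ≤ b) (x : GG L) :
    Rz h a b x - 1 = ∑ i ∈ Ico a b, Rz h a i x * h i x := by
  induction b, hab using Nat.le_induction with
  | base => simp [rz_self]
  | succ b hb ih =>
    rw [rz_succ h hb, Finset.sum_Ico_succ_top hb, ← ih]
    ring

/-- telescoping, first index -/
lemma rz_tel' (h : ℕ → GG L → ℝ) {a b : ℕ} (hab : a ≤ b) (x : GG L) :
    Rz h a b x - 1 = ∑ i ∈ Ico a b, h i x * Rz h (i + 1) b x := by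
  induction b, hab using Nat.le_induction with
  | base => simp [rz_self]
  | succ b hb ih =>
    rw [Finset.sum_Ico_succ_top hb, rz_succ h hb, rz_self, mul_one]
    have h1 : ∑ i ∈ Ico a b, h i x * Rz h (i + 1) (b + 1) x
        = (∑ i ∈ Ico a b, h i x * Rz h (i + 1) b x) * (1 + h b x) := by
      rw [Finset.sum_mul]
      refine Finset.sum_congr rfl fun i hi => ?_
      rw [Finset.mem_Ico] at hi
      rw [rz_succ h (by omega : i + 1 ≤ b)]
      ring
    rw [h1, ← ih]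
    ring

section

variable {N0 J : ℕ} {lo hi : ℝ} {act : Finset ℕ} {h : ℕ → GG L → ℝ}

lemma RD.spc_h (D : RD N0 J lo hi act h) (i : ℕ) :
    spc (fun x => (h i x : ℂ)) (fun k => i ∈ act ∧ bnd N0 lo hi i k) := by
  by_cases hi' : i ∈ act
  · exact spc_mono (D.sp i hi') fun k hk => ⟨hi', hk⟩
  · have : (fun x => (h i x : ℂ)) = fun _ => 0 := by
      funext x; rw [D.zero i hi' x]; simp
    rw [this]
    exact spc_zero _

/-- first frequency of a partial product -/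
lemma RD.sp1 (D : RD N0 J lo hi act h) (a b : ℕ) :
    spc (fun x => (Rz h a b x : ℂ)) (fun k => (fa k.1 : ℝ) ≤ hi / 7 * 8 ^ b) := by
  induction b with
  | zero =>
    have : (fun x => (Rz h a 0 x : ℂ)) = fun _ : GG L => (1 : ℂ) := by
      funext x; simp [Rz]
    rw [this]
    refine spc_mono spc_one fun k hk => ?_
    rw [hk]
    have := D.hi0
    simp only [Prod.fst_zero, fa_zero, Nat.cast_zero]
    positivity
  | succ b ih =>
    by_cases hab : a ≤ b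
    · have h1 : (fun x => (Rz h a (b + 1) x : ℂ))
          = fun x => (Rz h a b x : ℂ) + (Rz h a b x : ℂ) * (h b x : ℂ) := by
        funext x; rw [rz_succ h hab]; push_cast; ring
      rw [h1]
      refine spc_mono (spc_add ih (spc_mul ih (D.spc_h b))) fun k hk => ?_
      have hh := D.hi0
      rcases hk with hk | ⟨l, m, hl, ⟨_, hm⟩, rfl⟩
      · refine hk.trans ?_
        rw [pow_succ]
        have : (0 : ℝ) ≤ hi / 7 * 8 ^ b := by positivity
        nlinarith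
      · have h2 : (fa (l.1 + m.1) : ℝ) ≤ fa l.1 + fa m.1 := by exact_mod_cast fa_add_le _ _
        simp only [Prod.fst_add]
        have h3 := hm.2.1
        rw [pow_succ]
        linarith
    · have h1 : (fun x => (Rz h a (b + 1) x : ℂ)) = fun x => (Rz h a b x : ℂ) := by
        funext x
        unfold Rz
        rw [Finset.Ico_eq_empty_of_le (by omega), Finset.Ico_eq_empty_of_le (by omega)]
      rw [h1]
      refine spc_mono ih fun k hk => hk.trans ?_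
      have hh := D.hi0
      rw [pow_succ]
      have : (0 : ℝ) ≤ hi / 7 * 8 ^ b := by positivity
      nlinarith

/-- second frequency of a partial product -/
lemma RD.sp2 (D : RD N0 J lo hi act h) {a b : ℕ} (hab : a ≤ b) (hb : b ≤ N0) :
    spc (fun x => (Rz h a b x : ℂ))
      (fun k => (fa k.2 : ℝ) ≤ 8 * hi / 7 * (8 ^ (N0 - a) - 8 ^ (N0 - b))) := by
  induction b, hab using Nat.le_induction with
  | base =>
    have : (fun x => (Rz h a a x : ℂ)) = fun _ : GG L => (1 : ℂ) := by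
      funext x; rw [rz_self]; simp
    rw [this]
    refine spc_mono spc_one fun k hk => ?_
    rw [hk]
    simp [fa_zero]
  | succ b hab' ih =>
    have h1 : (fun x => (Rz h a (b + 1) x : ℂ))
        = fun x => (Rz h a b x : ℂ) + (Rz h a b x : ℂ) * (h b x : ℂ) := by
      funext x; rw [rz_succ h hab']; push_cast; ring
    rw [h1]
    have ih' := ih (by omega)
    have hpow : (8 : ℝ) ^ (N0 - b) = 8 * 8 ^ (N0 - (b + 1)) := by
      rw [← pow_succ']
      congr 1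
      omega
    refine spc_mono (spc_add ih' (spc_mul ih' (D.spc_h b))) fun k hk => ?_
    have hh := D.hi0
    have hp : (0 : ℝ) ≤ hi * 8 ^ (N0 - (b + 1)) := by positivity
    rcases hk with hk | ⟨l, m, hl, ⟨_, hm⟩, rfl⟩
    · refine hk.trans ?_
      rw [hpow]
      linarith
    · have h2 : (fa (l.2 + m.2) : ℝ) ≤ fa l.2 + fa m.2 := by exact_mod_cast fa_add_le _ _
      simp only [Prod.snd_add]
      have h3 := hm.2.2.2
      rw [hpow] at h3 hl
      linarith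

/-- a column `b` is free if it comes at least `J` after all earlier active ones -/
def Free (act : Finset ℕ) (J b : ℕ) : Prop := ∀ i ∈ act, i < b → i + J ≤ b

lemma RD.free (D : RD N0 J lo hi act h) {b : ℕ} (hb : b ∈ act) : Free act J b :=
  fun i hi hib => D.sep i hi b hb hib

lemma RD.sp1' (D : RD N0 J lo hi act h) (a : ℕ) {b : ℕ} (hf : Free act J b) :
    spc (fun x => (Rz h a b x : ℂ)) (fun k => (fa k.1 : ℝ) * 8 ^ J ≤ 8 * hi / 7 * 8 ^ b) := by
  have hh := D.hi0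
  by_cases hJ : J ≤ b + 1
  · have he : ∀ x, Rz h a b x = Rz h a (b + 1 - J) x := by
      intro x
      by_cases ha : a ≤ b + 1 - J
      · rw [← rz_mul h ha (by have := D.J1; omega : b + 1 - J ≤ b) x]
        rw [rz_one (a := b + 1 - J) (b := b)
          (fun i h1 h2 x => D.zero i (fun hi => by have := hf i hi h2; omega) x) x, mul_one]
      · have h1 : Rz h a (b + 1 - J) x = 1 := by
          unfold Rz
          rw [Finset.Ico_eq_empty_of_le (by omega)]; simp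
        rw [h1]
        exact rz_one (fun i h1 h2 x => D.zero i (fun hi => by have := hf i hi h2; omega) x) x
    have h1 : (fun x => (Rz h a b x : ℂ)) = fun x => (Rz h a (b + 1 - J) x : ℂ) := by
      funext x; rw [he x]
    rw [h1]
    refine spc_mono (D.sp1 a (b + 1 - J)) fun k hk => ?_
    have h2 : (8 : ℝ) ^ (b + 1 - J) * 8 ^ J = 8 * 8 ^ b := by
      rw [← pow_add, ← pow_succ']
      congr 1
      omega
    calc (fa k.1 : ℝ) * 8 ^ J ≤ (hi / 7 * 8 ^ (b + 1 - J)) * 8 ^ J :=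
          mul_le_mul_of_nonneg_right hk (by positivity)
      _ = hi / 7 * (8 ^ (b + 1 - J) * 8 ^ J) := by ring
      _ = 8 * hi / 7 * 8 ^ b := by rw [h2]; ring
  · have h1 : (fun x => (Rz h a b x : ℂ)) = fun _ : GG L => (1 : ℂ) := by
      funext x
      rw [rz_one (fun i h1 h2 x => D.zero i (fun hi => by have := hf i hi h2; omega) x) x]
      simp
    rw [h1]
    refine spc_mono spc_one fun k hk => ?_
    rw [hk]
    simp only [Prod.fst_zero, fa_zero, Nat.cast_zero, zero_mul]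
    positivity

lemma RD.sp2' (D : RD N0 J lo hi act h) {i b : ℕ} (hi' : i ∈ act) (hib : i < b) (hb : b ≤ N0)
    (hf : Free act J b) :
    spc (fun x => (Rz h (i + 1) b x : ℂ))
      (fun k => (fa k.2 : ℝ) ≤ 8 * hi / 7 * (8 ^ (N0 - i) / 8 ^ J - 8 ^ (N0 - b))) := by
  have hiJ := hf i hi' hib
  have hJ := D.J1
  have he : ∀ x, Rz h (i + 1) b x = Rz h (i + J) b x := by
    intro x
    rw [← rz_mul h (by omega : i + 1 ≤ i + J) hiJ x]
    rw [rz_one (fun j h1 h2 x => D.zero j (fun hj => by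
      have := D.sep i hi' j hj (by omega); omega) x) x, one_mul]
  have h1 : (fun x => (Rz h (i + 1) b x : ℂ)) = fun x => (Rz h (i + J) b x : ℂ) := by
    funext x; rw [he x]
  rw [h1]
  refine spc_mono (D.sp2 hiJ hb) fun k hk => ?_
  have h2 : (8 : ℝ) ^ (N0 - i) / 8 ^ J = 8 ^ (N0 - (i + J)) := by
    rw [div_eq_iff (by positivity), ← pow_add]
    congr 1
    omega
  rw [h2]
  exact hk

/-- second frequency near the level of the column `i` (precise form) -/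
def nr (N0 J : ℕ) (lo hi : ℝ) (b i : ℕ) (k : GG L) : Prop :=
  lo * 8 ^ (N0 - i) - 8 * hi / 7 * (8 ^ (N0 - i) / 8 ^ J - 8 ^ (N0 - b)) ≤ fa k.2 ∧
    (fa k.2 : ℝ) ≤ hi * 8 ^ (N0 - i) + 8 * hi / 7 * (8 ^ (N0 - i) / 8 ^ J - 8 ^ (N0 - b))

/-- spectrum of `Rz - 1` -/
lemma RD.sp3 (D : RD N0 J lo hi act h) {a b : ℕ} (hab : a ≤ b) (hb : b ≤ N0)
    (hf : Free act J b) :
    spc (fun x => ((Rz h a b x - 1 : ℝ) : ℂ))
      (fun k => ∃ i ∈ act, a ≤ i ∧ i < b ∧ nr N0 J lo hi b i k) := by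
  have h1 : (fun x => ((Rz h a b x - 1 : ℝ) : ℂ))
      = fun x => ∑ i ∈ Ico a b, (h i x : ℂ) * (Rz h (i + 1) b x : ℂ) := by
    funext x
    rw [rz_tel' h hab x]
    push_cast
    rfl
  rw [h1]
  have h2 : ∀ i ∈ Ico a b, spc (fun x => (h i x : ℂ) * (Rz h (i + 1) b x : ℂ))
      (fun k => i ∈ act ∧ nr N0 J lo hi b i k) := by
    intro i hi'
    rw [Finset.mem_Ico] at hi'
    by_cases hia : i ∈ act
    · refine spc_mono (spc_mul (D.sp i hia) (D.sp2' hia hi'.2 hb hf)) fun k hk => ?_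
      obtain ⟨l, m, hl, hm, rfl⟩ := hk
      refine ⟨hia, ?_, ?_⟩
      · have h3 : (fa l.2 : ℝ) ≤ fa (l.2 + m.2) + fa m.2 := by exact_mod_cast fa_le_add _ _
        have h4 := hl.2.2.1
        simp only [Prod.snd_add]
        linarith
      · have h3 : (fa (l.2 + m.2) : ℝ) ≤ fa l.2 + fa m.2 := by exact_mod_cast fa_add_le _ _
        have h4 := hl.2.2.2
        simp only [Prod.snd_add]
        linarith
    · have h3 : (fun x => (h i x : ℂ) * (Rz h (i + 1) b x : ℂ)) = fun _ => 0 := by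
        funext x; rw [D.zero i hia x]; simp
      rw [h3]
      exact spc_zero _
  refine spc_mono (spc_sum _ _ _ h2) fun k hk => ?_
  obtain ⟨i, hi', hia, hk⟩ := hk
  rw [Finset.mem_Ico] at hi'
  exact ⟨i, hia, hi'.1, hi'.2, hk⟩

/-- first frequencies of `Rz - 1` -/
lemma RD.sp3x (D : RD N0 J lo hi act h) (a : ℕ) {b : ℕ} (hf : Free act J b) :
    spc (fun x => ((Rz h a b x - 1 : ℝ) : ℂ))
      (fun k => (fa k.1 : ℝ) * 8 ^ J ≤ 8 * hi / 7 * 8 ^ b) := by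
  have h1 := spc_add (D.sp1' a hf) (spc_const_mul (-1) (spc_one (L := L)))
  have h2 : (fun x => (Rz h a b x : ℂ) + (-1) * 1) = fun x => ((Rz h a b x - 1 : ℝ) : ℂ) := by
    funext x; push_cast; ring
  rw [h2] at h1
  refine spc_mono h1 fun k hk => ?_
  rcases hk with hk | hk
  · exact hk
  · rw [hk]
    have hh := D.hi0
    simp only [Prod.fst_zero, fa_zero, Nat.cast_zero, zero_mul]
    positivity

/-- the far region seen from column `b` at the level of the column `i` -/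
def farr (N0 : ℕ) (lo1 hi1 : ℝ) (b i : ℕ) (k : GG L) : Prop :=
  lo1 * 8 ^ b ≤ fa k.1 ∧ (fa k.1 : ℝ) ≤ hi1 * 8 ^ b ∧
    lo1 * 8 ^ (N0 - i) ≤ fa k.2 ∧ (fa k.2 : ℝ) ≤ hi1 * 8 ^ (N0 - i)

/-- the leak condition -/
structure Leak (J : ℕ) (lo hi lo1 hi1 : ℝ) : Prop where
  up : hi + 4 / 8 ^ J ≤ hi1
  dn : lo1 + 4 / 8 ^ J ≤ lo
  lo1 : 1 / 2 ≤ lo1
  hi1 : hi1 ≤ 3

lemma pow_pos8 (n : ℕ) : (0 : ℝ) < 8 ^ n := by positivity

/-- arithmetic of the leak -/
lemma leak_arith {J n nb : ℕ} {lo hi lo1 hi1 f g : ℝ} (hK : Leak J lo hi lo1 hi1) (hh0 : 0 ≤ hi)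
    (hh3 : hi ≤ 3)
    (h1 : lo * 8 ^ n - 8 * hi / 7 * (8 ^ n / 8 ^ J - 8 ^ nb) ≤ f)
    (h2 : f ≤ hi * 8 ^ n + 8 * hi / 7 * (8 ^ n / 8 ^ J - 8 ^ nb))
    (hg : |g - f| ≤ hi * 8 ^ nb) : lo1 * 8 ^ n ≤ g ∧ g ≤ hi1 * 8 ^ n := by
  have hn := pow_pos8 n
  have hnb := pow_pos8 nb
  have hJ := pow_pos8 J
  have hq : (0 : ℝ) ≤ 8 ^ n / 8 ^ J := by positivity
  rw [abs_le] at hg
  have e1 : 8 * hi / 7 * (8 ^ n / 8 ^ J - 8 ^ nb) + hi * 8 ^ nb ≤ 4 * (8 ^ n / 8 ^ J) := by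
    have : 8 * hi / 7 * (8 ^ n / 8 ^ J) ≤ 4 * (8 ^ n / 8 ^ J) :=
      mul_le_mul_of_nonneg_right (by linarith) hq
    have h3 : (0 : ℝ) ≤ hi * 8 ^ nb := by positivity
    nlinarith
  have e2 : 4 * ((8 : ℝ) ^ n / 8 ^ J) = 4 / 8 ^ J * 8 ^ n := by ring
  have e3 : (hi + 4 / 8 ^ J) * 8 ^ n ≤ hi1 * 8 ^ n := mul_le_mul_of_nonneg_right hK.up hn.le
  have e4 : (lo1 + 4 / 8 ^ J) * 8 ^ n ≤ lo * 8 ^ n := mul_le_mul_of_nonneg_right hK.dn hn.le
  constructor
  · linarith [hg.1]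
  · linarith [hg.2]

lemma leak_arith_x {J n : ℕ} {lo hi lo1 hi1 f g d : ℝ} (hK : Leak J lo hi lo1 hi1)
    (hh3 : hi ≤ 3) (h1 : lo * 8 ^ n ≤ f) (h2 : f ≤ hi * 8 ^ n)
    (hd : d * 8 ^ J ≤ 8 * hi / 7 * 8 ^ n)
    (hg : |g - f| ≤ d) : lo1 * 8 ^ n ≤ g ∧ g ≤ hi1 * 8 ^ n := by
  have hn := pow_pos8 n
  have hJ := pow_pos8 J
  rw [abs_le] at hg
  have e0 : d ≤ 4 / 8 ^ J * 8 ^ n := by
    have : d * 8 ^ J ≤ 4 * 8 ^ n := hd.trans (mul_le_mul_of_nonneg_right (by linarith) hn.le)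
    rw [div_mul_eq_mul_div, le_div_iff₀ hJ]
    exact this
  have e3 : (hi + 4 / 8 ^ J) * 8 ^ n ≤ hi1 * 8 ^ n := mul_le_mul_of_nonneg_right hK.up hn.le
  have e4 : (lo1 + 4 / 8 ^ J) * 8 ^ n ≤ lo * 8 ^ n := mul_le_mul_of_nonneg_right hK.dn hn.le
  constructor
  · linarith [hg.1]
  · linarith [hg.2]

/-- (2.1): spectrum of the Riesz product times a function in the band of `b` -/
lemma RD.sp4 (D : RD N0 J lo hi act h) {lo1 hi1 : ℝ} (hK : Leak J lo hi lo1 hi1) {b : ℕ}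
    (hb : b ≤ N0) (hf : Free act J b) {H : GG L → ℂ} (hH : spc H (bnd N0 lo hi b)) :
    spc (fun x => (Rz h 0 b x : ℂ) * H x)
      (fun k => ∃ i, (i = b ∨ (i ∈ act ∧ i < b)) ∧ farr N0 lo1 hi1 b i k) := by
  have h1 := spc_mul (D.sp1' 0 hf) hH
  have h2 := spc_add hH (spc_mul (D.sp3 (Nat.zero_le b) hb hf) hH)
  have h3 : (fun x => H x + ((Rz h 0 b x - 1 : ℝ) : ℂ) * H x)
      = fun x => (Rz h 0 b x : ℂ) * H x := by
    funext x; push_cast; ring
  rw [h3] at h2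
  intro k hk
  have hx : lo1 * 8 ^ b ≤ fa k.1 ∧ (fa k.1 : ℝ) ≤ hi1 * 8 ^ b := by
    obtain ⟨l, m, hl, hm, rfl⟩ := h1 k hk
    refine leak_arith_x hK D.hi3 hm.1 hm.2.1 hl ?_
    have e1 : (fa (l.1 + m.1) : ℝ) ≤ fa l.1 + fa m.1 := by exact_mod_cast fa_add_le _ _
    have e2 : (fa m.1 : ℝ) ≤ fa (m.1 + l.1) + fa l.1 := by exact_mod_cast fa_le_add _ _
    rw [add_comm m.1 l.1] at e2
    simp only [Prod.fst_add]
    rw [abs_le]
    constructor <;> linarith
  rcases h2 k hk with hk2 | ⟨l, m, ⟨i, hia, _, hib, hl⟩, hm, rfl⟩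
  · refine ⟨b, Or.inl rfl, hx.1, hx.2, ?_, ?_⟩
    · have hn := pow_pos8 (N0 - b)
      have hJ : (0 : ℝ) ≤ 4 / 8 ^ J := by positivity
      have := hK.dn
      refine le_trans ?_ hk2.2.2.1
      exact mul_le_mul_of_nonneg_right (by linarith) hn.le
    · have hn := pow_pos8 (N0 - b)
      have hJ : (0 : ℝ) ≤ 4 / 8 ^ J := by positivity
      have := hK.up
      refine hk2.2.2.2.trans ?_
      exact mul_le_mul_of_nonneg_right (by linarith) hn.le
  · refine ⟨i, Or.inr ⟨hia, hib⟩, hx.1, hx.2, ?_⟩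
    refine leak_arith hK D.hi0 D.hi3 hl.1 hl.2 ?_
    have e0 := hm.2.2.2
    have e1 : (fa (l.2 + m.2) : ℝ) ≤ fa l.2 + fa m.2 := by exact_mod_cast fa_add_le _ _
    have e2 : (fa l.2 : ℝ) ≤ fa (l.2 + m.2) + fa m.2 := by exact_mod_cast fa_le_add _ _
    simp only [Prod.snd_add]
    rw [abs_le]
    constructor <;> linarith

/-- lower bound for the second frequencies of `Rz - 1` -/
lemma nr_ge {lo1 hi1 : ℝ} (hK : Leak J lo hi lo1 hi1) (h0 : 0 ≤ hi) (h3 : hi ≤ 3) {b i : ℕ}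
    {k : GG L} (hk : nr N0 J lo hi b i k) :
    lo1 * 8 ^ (N0 - i) ≤ fa k.2 ∧ (fa k.2 : ℝ) ≤ hi1 * 8 ^ (N0 - i) :=
  leak_arith hK h0 h3 hk.1 hk.2 (by rw [sub_self, abs_zero]; positivity)

/-- `E Ψ = 1` -/
lemma RD.mean (D : RD N0 J lo hi act h) {lo1 hi1 : ℝ} (hK : Leak J lo hi lo1 hi1) {a b : ℕ}
    (hab : a ≤ b) (hb : b ≤ N0) (hf : Free act J b) : ER (Rz h a b) = 1 := by
  have h1 : co2 (fun x => ((Rz h a b x - 1 : ℝ) : ℂ)) 0 = 0 := by
    refine spc_eq_zero (D.sp3 hab hb hf) ?_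
    rintro ⟨i, hia, _, _, hk⟩
    have h2 := (nr_ge hK D.hi0 D.hi3 hk).1
    have h3 := hK.lo1
    have h4 := pow_pos8 (N0 - i)
    simp only [Prod.snd_zero, fa_zero, Nat.cast_zero] at h2
    nlinarith
  unfold co2 at h1
  have h2 : (fun x : GG L => ((Rz h a b x - 1 : ℝ) : ℂ) * conj (ch2 0 x))
      = fun x => ((Rz h a b x - 1 : ℝ) : ℂ) := by
    funext x; rw [ch2_zero_left]; simp
  rw [h2, E_ofReal] at h1
  have h3 : ER (fun x => Rz h a b x - 1) = 0 := by exact_mod_cast h1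
  rw [ER_sub, ER_const] at h3
  linarith

/-- (2.2): the sum of the pairings is at most `2 sup |g|` -/
lemma RD.pair (D : RD N0 J lo hi act h) {lo1 hi1 : ℝ} (hK : Leak J lo hi lo1 hi1) {b : ℕ}
    (hb : b ≤ N0) (hf : Free act J b) (g : GG L → ℝ) {A : ℝ} (hg : ∀ x, |g x| ≤ A) :
    ∑ i ∈ Ico 0 b, ER (fun x => g x * (Rz h 0 i x * h i x)) ≤ 2 * A := by
  have h1 : ∑ i ∈ Ico 0 b, ER (fun x => g x * (Rz h 0 i x * h i x))
      = ER (fun x => g x * (Rz h 0 b x - 1)) := by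
    have : ∀ s : Finset ℕ, ∑ i ∈ s, ER (fun x => g x * (Rz h 0 i x * h i x))
        = ER (fun x => ∑ i ∈ s, g x * (Rz h 0 i x * h i x)) := by
      intro s
      unfold ER
      rw [← Finset.mul_sum, Finset.sum_comm]
    rw [this]
    congr 1
    funext x
    rw [rz_tel h (Nat.zero_le b) x, Finset.mul_sum]
  rw [h1]
  have hA : 0 ≤ A := (abs_nonneg _).trans (hg 0)
  calc ER (fun x => g x * (Rz h 0 b x - 1)) ≤ ER (fun x => A * Rz h 0 b x + A) := by
        refine ER_mono fun x => ?_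
        have h2 := abs_le.1 (hg x)
        have h3 := rz_nonneg D.le 0 b x
        nlinarith
    _ = 2 * A := by
        rw [ER_add, ER_const, ER_mul_left]
        have := D.mean hK (Nat.zero_le b) hb hf
        rw [this]
        ring

end

end Pool.Agent.H17.CR
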