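import Pool.Agent.H17.CR.ConA

set_option autoImplicit false

/-! From the grid to all points. -/

namespace Pool.Agent.H17.CR

open Finset ComplexConjugate H95.CP

variable {L : ℕ} [NeZero L]

/-- the reproducing kernel of the strip -/
noncomputable def Kr (b V : ℕ) (w : ZMod L) (y : GG L) : ℂ :=
  (vp (4 * 8 ^ b) (8 * 8 ^ b) y.1 : ℂ) * sk (15 * 8 ^ V) (30 * 8 ^ V) w y.2

/-- its majorant -/
noncomputable def Kq (b V : ℕ) (y : GG L) : ℝ :=
  vq (4 * 8 ^ b) (8 * 8 ^ b) y.1 * vq (15 * 8 ^ V) (30 * 8 ^ V) y.2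

lemma co2_Kr {b V : ℕ} (hb : 2 * (8 * 8 ^ b) ≤ L) (hV : 2 * (30 * 8 ^ V) ≤ L) (w : ZMod L)
    (k : GG L) : co2 (Kr b V w) k
      = (mu (4 * 8 ^ b) (8 * 8 ^ b) (fa k.1) : ℂ) * (mu (15 * 8 ^ V) (30 * 8 ^ V) (fa (k.2 - w)) : ℂ) := by
  have h8 : 0 < 8 ^ b := by positivity
  have h8' : 0 < 8 ^ V := by positivity
  have h := co2_prod (fun t : ZMod L => (vp (4 * 8 ^ b) (8 * 8 ^ b) t : ℂ))
    (fun t => sk (15 * 8 ^ V) (30 * 8 ^ V) w t) k
  rw [co_vp (by omega) hb, co_sk (by omega) hV] at h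
  exact h

lemma co2_Kq {b V : ℕ} (hb : 2 * (8 * 8 ^ b) ≤ L) (hV : 2 * (30 * 8 ^ V) ≤ L)
    (k : GG L) : co2 (fun x => (Kq b V x : ℂ)) k
      = (mq (4 * 8 ^ b) (8 * 8 ^ b) (fa k.1) : ℂ) * (mq (15 * 8 ^ V) (30 * 8 ^ V) (fa k.2) : ℂ) := by
  have h8 : 0 < 8 ^ b := by positivity
  have h8' : 0 < 8 ^ V := by positivity
  have h := co2_prod (fun t : ZMod L => (vq (4 * 8 ^ b) (8 * 8 ^ b) t : ℂ))
    (fun t => (vq (15 * 8 ^ V) (30 * 8 ^ V) t : ℂ)) k
  rw [co_vq (by omega) hb, co_vq (by omega) hV] at h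
  rw [← h]
  congr 1
  funext x
  unfold Kq
  push_cast
  rfl

lemma norm_Kr_le (b V : ℕ) (w : ZMod L) (y : GG L) : ‖Kr b V w y‖ ≤ Kq b V y := by
  have h8 : 0 < 8 ^ b := by positivity
  have h8' : 0 < 8 ^ V := by positivity
  unfold Kr Kq
  rw [norm_mul]
  refine mul_le_mul ?_ (norm_sk_le (by omega) w y.2) (norm_nonneg _) (vq_nonneg (by omega) _)
  rw [Complex.norm_real]
  exact abs_vp_le (by omega) _

lemma co2_refl_sub (K : GG L → ℂ) (x k : GG L) :
    co2 (fun s => K (x - s)) k = conj (ch2 k x) * co2 K (-k) := by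
  rw [← E_mul_ch2, ← E_mul_left]
  unfold co2
  rw [← E_refl (fun s => K (x - s) * conj (ch2 k s)) x]
  congr 1
  funext s
  rw [sub_sub_cancel, ch2_sub_right, map_mul, Complex.conj_conj]
  ring

lemma sample {b V : ℕ} {w : ZMod L} {f : GG L → ℂ} (hb : 8 ^ (b + 2) ∣ L) (hV : 8 ^ (V + 2) ∣ L)
    (hf : spc f (fun k => fa k.1 < 4 * 8 ^ b ∧ fa (k.2 - w) < 15 * 8 ^ V)) {B : ℝ}
    (hB : ∀ p : Fin (8 ^ (b + 2)) × Fin (8 ^ (V + 2)), ‖f (gp2 _ _ p)‖ ≤ B) (x : GG L) :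
    ‖f x‖ ≤ 9 * B := by
  have h8 : 0 < 8 ^ b := by positivity
  have h8' : 0 < 8 ^ V := by positivity
  have hLpos := NeZero.pos L
  have e1 : 8 ^ (b + 2) = 64 * 8 ^ b := by rw [pow_add]; omega
  have e2 : 8 ^ (V + 2) = 64 * 8 ^ V := by rw [pow_add]; omega
  have hLb : 64 * 8 ^ b ≤ L := by rw [← e1]; exact Nat.le_of_dvd hLpos hb
  have hLV : 64 * 8 ^ V ≤ L := by rw [← e2]; exact Nat.le_of_dvd hLpos hV
  have k1 : 2 * (8 * 8 ^ b) ≤ L := by omega
  have k2 : 2 * (30 * 8 ^ V) ≤ L := by omega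
  -- reproduction
  have hrep : conv (Kr b V w) f = f := by
    apply ext_co2
    intro k
    rw [co2_conv, co2_Kr k1 k2]
    by_cases hk : co2 f k = 0
    · rw [hk, mul_zero]
    · obtain ⟨h1, h2⟩ := hf k hk
      rw [mu_one (by omega) h1.le, mu_one (by omega) h2.le]
      simp
  -- the product
  set F : GG L → ℂ := fun s => f s * Kr b V w (x - s) with hF
  have hEF : E F = f x := by
    conv_rhs => rw [← hrep]
    unfold conv
    rw [← E_refl F x]
    congr 1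
    funext s
    simp only [hF, sub_sub_cancel]
    ring
  have hKs : spc (fun s => Kr b V w (x - s))
      (fun k => fa k.1 < 8 * 8 ^ b ∧ fa (k.2 + w) < 30 * 8 ^ V) := by
    intro k hk
    rw [co2_refl_sub, co2_Kr k1 k2] at hk
    have h1 := right_ne_zero_of_mul hk
    have h2 := left_ne_zero_of_mul h1
    have h3 := right_ne_zero_of_mul h1
    constructor
    · by_contra hcon
      apply h2
      rw [mu_zero (by omega)]
      · simp
      · rw [Prod.fst_neg, fa_neg]; omega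
    · by_contra hcon
      apply h3
      rw [mu_zero (by omega)]
      · simp
      · have : (-k).2 - w = -(k.2 + w) := by rw [Prod.snd_neg]; ring
        rw [this, fa_neg]; omega
  have hFs : ∀ k, co2 F k ≠ 0 → fa k.1 < 8 ^ (b + 2) ∧ fa k.2 < 8 ^ (V + 2) := by
    intro k hk
    obtain ⟨l, m, hl, hm, rfl⟩ := spc_mul hf hKs k hk
    have a1 := fa_add_le l.1 m.1
    have a2 := fa_add_le (l.2 - w) (m.2 + w)
    have e3 : l.2 - w + (m.2 + w) = l.2 + m.2 := by ring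
    rw [e3] at a2
    simp only [Prod.fst_add, Prod.snd_add]
    omega
  have hg := grid_mean hb hV F hFs 0
  rw [hEF] at hg
  rw [← hg]
  -- the average of the majorant
  have hq := grid_mean_sub hb hV (fun y => (Kq b V y : ℂ)) (by
    intro k hk
    rw [co2_Kq k1 k2] at hk
    have h2 := left_ne_zero_of_mul hk
    have h3 := right_ne_zero_of_mul hk
    constructor
    · by_contra hcon
      apply h2
      rw [mq_zero (by omega) (by omega)]
      simp
    · by_contra hcon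
      apply h3
      rw [mq_zero (by omega) (by omega)]
      simp) x
  have hm : E (fun y : GG L => (Kq b V y : ℂ)) = 9 := by
    rw [E_ofReal]
    have h1 := ER_prod (fun t : ZMod L => vq (4 * 8 ^ b) (8 * 8 ^ b) t)
      (fun t : ZMod L => vq (15 * 8 ^ V) (30 * 8 ^ V) t)
    rw [mean_vq (by omega) k1, mean_vq (by omega) k2] at h1
    have h2 : ER (fun y : GG L => Kq b V y) = 9 := by
      unfold Kq
      rw [h1]
      push_cast
      have p1 : (0 : ℝ) < 8 ^ b := by positivity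
      have p2 : (0 : ℝ) < 8 ^ V := by positivity
      field_simp
      ring
    rw [h2]
    norm_num
  rw [hm] at hq
  have hq' : avgR (8 ^ (b + 2)) (8 ^ (V + 2)) (fun i => Kq b V (x - gp2 _ _ i)) = 9 := by
    have := avg_ofReal (8 ^ (b + 2)) (8 ^ (V + 2)) (fun i => Kq b V (x - gp2 _ _ i))
    rw [hq] at this
    exact_mod_cast this.symm
  have hfin : ‖avg (8 ^ (b + 2)) (8 ^ (V + 2)) (fun i => F (0 + gp2 _ _ i))‖
      ≤ avgR (8 ^ (b + 2)) (8 ^ (V + 2)) (fun i => B * Kq b V (x - gp2 _ _ i)) := by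
    unfold avg avgR
    rw [norm_mul]
    have hn : ‖(1 / (((8 ^ (b + 2) : ℕ) : ℂ) * ((8 ^ (V + 2) : ℕ) : ℂ)))‖
        = 1 / (((8 ^ (b + 2) : ℕ) : ℝ) * ((8 ^ (V + 2) : ℕ) : ℝ)) := by
      rw [norm_div, norm_mul, Complex.norm_natCast, Complex.norm_natCast, norm_one]
    rw [hn]
    refine mul_le_mul_of_nonneg_left ?_ (by positivity)
    refine (norm_sum_le _ _).trans (Finset.sum_le_sum fun i _ => ?_)
    simp only [hF, zero_add, norm_mul]
    exact mul_le_mul (hB i) (norm_Kr_le b V w _) (norm_nonneg _) ((norm_nonneg _).trans (hB i))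
  refine hfin.trans (le_of_eq ?_)
  have : avgR (8 ^ (b + 2)) (8 ^ (V + 2)) (fun i => B * Kq b V (x - gp2 _ _ i))
      = B * avgR (8 ^ (b + 2)) (8 ^ (V + 2)) (fun i => Kq b V (x - gp2 _ _ i)) := by
    unfold avgR
    rw [← Finset.mul_sum]
    ring
  rw [this, hq']
  ring

end Pool.Agent.H17.CR
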