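import Pool.Agent.H95.CP.Grd

/-! Spectra of functions on `GG L`. -/

namespace Pool.Agent.H17.CR

open Finset ComplexConjugate H95.CP

variable {L : ℕ} [NeZero L]

lemma fa_le_add (k l : ZMod L) : fa k ≤ fa (k + l) + fa l := by
  have := fa_sub_le (k + l) l
  rwa [add_sub_cancel_right] at this

lemma fa_sub_comm (k l : ZMod L) : fa (k - l) = fa (l - k) := by
  rw [← fa_neg, neg_sub]

/-- the spectrum of `f` is contained in `S` -/
def spc (f : GG L → ℂ) (S : GG L → Prop) : Prop := ∀ k, co2 f k ≠ 0 → S k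

lemma spc_mono {f : GG L → ℂ} {S T : GG L → Prop} (h : spc f S) (hST : ∀ k, S k → T k) : spc f T :=
  fun k hk => hST k (h k hk)

lemma spc_eq_zero {f : GG L → ℂ} {S : GG L → Prop} (h : spc f S) {k : GG L} (hk : ¬ S k) :
    co2 f k = 0 := by
  by_contra hne
  exact hk (h k hne)

lemma spc_mul {f g : GG L → ℂ} {S T : GG L → Prop} (hf : spc f S) (hg : spc g T) :
    spc (fun x => f x * g x) (fun k => ∃ l m, S l ∧ T m ∧ k = l + m) := by
  intro k hk
  rw [co2_mul] at hk
  obtain ⟨l, _, hl⟩ := Finset.exists_ne_zero_of_sum_ne_zero hk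
  refine ⟨l, k - l, hf l (left_ne_zero_of_mul hl), hg _ (right_ne_zero_of_mul hl), by ring⟩

lemma spc_add {f g : GG L → ℂ} {S T : GG L → Prop} (hf : spc f S) (hg : spc g T) :
    spc (fun x => f x + g x) (fun k => S k ∨ T k) := by
  intro k hk
  rw [co2_add] at hk
  by_contra hcon
  push Not at hcon
  rw [spc_eq_zero hf hcon.1, spc_eq_zero hg hcon.2, add_zero] at hk
  exact hk rfl

lemma spc_sum {ι : Type*} (s : Finset ι) (f : ι → GG L → ℂ) (S : ι → GG L → Prop)
    (h : ∀ i ∈ s, spc (f i) (S i)) : spc (fun x => ∑ i ∈ s, f i x) (fun k => ∃ i ∈ s, S i k) := by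
  intro k hk
  rw [co2_sum] at hk
  obtain ⟨i, hi, hne⟩ := Finset.exists_ne_zero_of_sum_ne_zero hk
  exact ⟨i, hi, h i hi k hne⟩

lemma spc_const_mul {f : GG L → ℂ} {S : GG L → Prop} (a : ℂ) (hf : spc f S) :
    spc (fun x => a * f x) S := by
  intro k hk
  rw [co2_smul] at hk
  exact hf k (right_ne_zero_of_mul hk)

lemma spc_ch2 (l : GG L) : spc (fun x => ch2 l x) (fun k => k = l) := by
  intro k hk
  rw [co2_ch2] at hk
  by_contra hcon
  rw [if_neg (fun h => hcon h.symm)] at hk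
  exact hk rfl

lemma spc_one : spc (fun _ : GG L => (1 : ℂ)) (fun k => k = 0) := by
  have h := spc_ch2 (0 : GG L)
  simpa only [ch2_zero_left] using h

lemma spc_zero (S : GG L → Prop) : spc (fun _ : GG L => (0 : ℂ)) S := by
  intro k hk
  exfalso
  apply hk
  unfold co2
  simp [E]

lemma spc_yconv (K : ZMod L → ℂ) {f : GG L → ℂ} {S : GG L → Prop} (hf : spc f S) :
    spc (yconv K f) (fun k => S k ∧ co K k.2 ≠ 0) := by
  intro k hk
  rw [co2_yconv] at hk
  exact ⟨hf k (right_ne_zero_of_mul hk), left_ne_zero_of_mul hk⟩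

lemma fun_eq_zero {f : GG L → ℂ} (h : ∀ k, co2 f k = 0) (x : GG L) : f x = 0 := by
  rw [inversion2 f x]
  exact Finset.sum_eq_zero fun k _ => by rw [h k, zero_mul]

/-- disjoint spectra -/
lemma conv_eq_zero {V f : GG L → ℂ} {S T : GG L → Prop} (hV : spc V S) (hf : spc f T)
    (hST : ∀ k, S k → ¬ T k) (x : GG L) : conv V f x = 0 := by
  refine fun_eq_zero (fun k => ?_) x
  rw [co2_conv]
  by_cases h : S k
  · rw [spc_eq_zero hf (hST k h), mul_zero]
  · rw [spc_eq_zero hV h, zero_mul]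

lemma yconv_eq_zero {K : ZMod L → ℂ} {f : GG L → ℂ} {T : GG L → Prop} (hf : spc f T)
    (hT : ∀ k, T k → co K k.2 = 0) (x : GG L) : yconv K f x = 0 := by
  refine fun_eq_zero (fun k => ?_) x
  rw [co2_yconv]
  by_cases h : T k
  · rw [hT k h, zero_mul]
  · rw [spc_eq_zero hf h, mul_zero]

lemma conv_add (V f g : GG L → ℂ) (x : GG L) :
    conv V (fun x => f x + g x) x = conv V f x + conv V g x := by
  unfold conv
  rw [← E_add]
  congr 1
  ext s
  ring

lemma conv_sum (V : GG L → ℂ) {ι : Type*} (s : Finset ι) (f : ι → GG L → ℂ) (x : GG L) :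
    conv V (fun x => ∑ i ∈ s, f i x) x = ∑ i ∈ s, conv V (f i) x := by
  unfold conv
  rw [← E_sum]
  congr 1
  ext y
  rw [Finset.mul_sum]

lemma conv_smul (V : GG L → ℂ) (a : ℂ) (f : GG L → ℂ) (x : GG L) :
    conv V (fun x => a * f x) x = a * conv V f x := by
  unfold conv
  rw [← E_mul_left]
  congr 1
  ext y
  ring

lemma yconv_add (K : ZMod L → ℂ) (f g : GG L → ℂ) (x : GG L) :
    yconv K (fun x => f x + g x) x = yconv K f x + yconv K g x := by
  unfold yconv
  rw [← mul_add, ← Finset.sum_add_distrib]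
  congr 1
  refine Finset.sum_congr rfl fun s _ => by ring

lemma yconv_sum (K : ZMod L → ℂ) {ι : Type*} (s : Finset ι) (f : ι → GG L → ℂ) (x : GG L) :
    yconv K (fun x => ∑ i ∈ s, f i x) x = ∑ i ∈ s, yconv K (f i) x := by
  unfold yconv
  rw [← Finset.mul_sum, Finset.sum_comm]
  congr 1
  refine Finset.sum_congr rfl fun t _ => by rw [Finset.mul_sum]

/-- convolution against a nonnegative majorant -/
lemma norm_conv_le' (V : GG L → ℂ) (V' : GG L → ℝ) (hV : ∀ x, ‖V x‖ ≤ V' x) (f : GG L → ℂ)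
    (f' : GG L → ℝ) (hf : ∀ x, ‖f x‖ ≤ f' x) (x : GG L) :
    ‖conv V f x‖ ≤ ER (fun s => V' s * f' (x - s)) := by
  unfold conv
  refine (norm_E_le _).trans (ER_mono fun s => ?_)
  rw [norm_mul]
  exact mul_le_mul (hV s) (hf _) (norm_nonneg _) ((norm_nonneg _).trans (hV s))

/-- mean-one property -/
lemma mean_one {V' P : GG L → ℝ} {S T : GG L → Prop}
    (hV : spc (fun x => (V' x : ℂ)) S) (hP : spc (fun x => ((P x - 1 : ℝ) : ℂ)) T)
    (hST : ∀ k, S k → ¬ T k) (x : GG L) : ER (fun s => V' s * P (x - s)) = ER V' := by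
  have h0 := conv_eq_zero hV hP hST x
  unfold conv at h0
  have h1 : (ER (fun s => V' s * (P (x - s) - 1)) : ℂ) = 0 := by
    rw [← E_ofReal, ← h0]
    congr 1
    ext s
    push_cast
    ring
  have h2 : ER (fun s => V' s * (P (x - s) - 1)) = 0 := by exact_mod_cast h1
  have h3 : ER (fun s => V' s * (P (x - s) - 1))
      = ER (fun s => V' s * P (x - s)) - ER V' := by
    rw [← ER_sub]
    congr 1
    ext s
    ring
  linarith

/-- mean-one property for convolutions in the second variable -/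
lemma mean_one_y {K' : ZMod L → ℝ} {P : GG L → ℝ} {T : GG L → Prop}
    (hP : spc (fun x => ((P x - 1 : ℝ) : ℂ)) T)
    (hT : ∀ k, T k → co (fun t => (K' t : ℂ)) k.2 = 0) (x : GG L) :
    (1 / (L : ℝ)) * ∑ s : ZMod L, K' s * P (x.1, x.2 - s) = (1 / (L : ℝ)) * ∑ s, K' s := by
  have h0 := yconv_eq_zero hP hT x
  unfold yconv at h0
  have h1 : (((1 / (L : ℝ)) * ∑ s : ZMod L, K' s * (P (x.1, x.2 - s) - 1) : ℝ) : ℂ) = 0 := by
    rw [← h0]
    push_cast
    congr 1
  have h2 : (1 / (L : ℝ)) * ∑ s : ZMod L, K' s * (P (x.1, x.2 - s) - 1) = 0 := by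
    exact_mod_cast h1
  have h3 : ∑ s : ZMod L, K' s * (P (x.1, x.2 - s) - 1)
      = ∑ s : ZMod L, K' s * P (x.1, x.2 - s) - ∑ s, K' s := by
    rw [← Finset.sum_sub_distrib]
    exact Finset.sum_congr rfl fun s _ => by ring
  rw [h3, mul_sub] at h2
  linarith

/-- the strip estimate: `V` low-pass in the second frequency, `Q ≥ 0` with `Q - 1` of second
frequencies in `[W, R]`, and `σ` a kernel with multiplier one near `-λ`. -/
lemma strip_bound {V : GG L → ℂ} {V' P Q : GG L → ℝ} {σ : ZMod L → ℂ} {W R : ℕ} {lam : GG L} {B : ℝ}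
    (hV : spc V (fun k => fa k.2 < W)) (hVV : ∀ x, ‖V x‖ ≤ V' x)
    (hV' : spc (fun x => (V' x : ℂ)) (fun k => fa k.2 < W))
    (hQ0 : ∀ x, 0 ≤ Q x)
    (hQ : spc (fun x => ((Q x - 1 : ℝ) : ℂ)) (fun k => W ≤ fa k.2 ∧ fa k.2 ≤ R))
    (hσ : ∀ j : ZMod L, fa (j + lam.2) < W + R → co σ j = 1)
    (hlam : W + R ≤ fa lam.2)
    (hB : ∀ x, ‖yconv σ (fun x => ((P x - 1 : ℝ) : ℂ)) x‖ ≤ B) (x : GG L) :
    ‖conv V (fun x => ((P x * Q x - 1 : ℝ) : ℂ) * ch2 lam x) x‖ ≤ ER V' * B := by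
  set p : GG L → ℂ := fun x => ((P x - 1 : ℝ) : ℂ) with hp
  set q : GG L → ℂ := fun x => ((Q x - 1 : ℝ) : ℂ) with hq
  have hQ1 : spc (fun x => (Q x : ℂ)) (fun k => fa k.2 ≤ R) := by
    have h1 := spc_add hQ spc_one
    have h2 : (fun x => q x + 1) = (fun x => (Q x : ℂ)) := by
      funext x; simp only [hq]; push_cast; ring
    rw [h2] at h1
    refine spc_mono h1 fun k hk => ?_
    rcases hk with hk | hk
    · exact hk.2
    · rw [hk]; simp [fa_zero]
  -- first vanishing term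
  have hz1 : ∀ x, conv V (fun x => q x * ch2 lam x) x = 0 := by
    refine conv_eq_zero hV (spc_mul hQ (spc_ch2 lam)) fun k hk hcon => ?_
    obtain ⟨l, m, hl, rfl, rfl⟩ := hcon
    have h1 := fa_le_add m.2 l.2
    rw [add_comm m.2 l.2] at h1
    simp only [Prod.snd_add] at hk
    omega
  -- second vanishing term
  set r : GG L → ℂ := fun x => p x + (-1) * yconv σ p x with hr
  have hrs : spc r (fun k => W + R ≤ fa (k.2 + lam.2)) := by
    intro k hk
    by_contra hcon
    push Not at hcon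
    apply hk
    rw [hr, co2_add, co2_smul, co2_yconv, hσ k.2 hcon]
    ring
  have hz2 : ∀ x, conv V (fun x => (r x * (Q x : ℂ)) * ch2 lam x) x = 0 := by
    refine conv_eq_zero hV (spc_mul (spc_mul hrs hQ1) (spc_ch2 lam)) fun k hk hcon => ?_
    obtain ⟨lm, n, ⟨l, m, hl, hm, rfl⟩, rfl, rfl⟩ := hcon
    simp only [Prod.snd_add] at hk
    have h1 := fa_le_add (l.2 + n.2) m.2
    have e : l.2 + n.2 + m.2 = l.2 + m.2 + n.2 := by ring
    rw [e] at h1
    omega
  have hsplit : (fun x => ((P x * Q x - 1 : ℝ) : ℂ) * ch2 lam x)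
      = fun x => ((yconv σ p x * (Q x : ℂ)) * ch2 lam x + (r x * (Q x : ℂ)) * ch2 lam x)
          + q x * ch2 lam x := by
    funext x
    simp only [hr, hp, hq]
    push_cast
    ring
  rw [hsplit, conv_add, conv_add, hz1 x, hz2 x, add_zero, add_zero]
  have hb : ∀ z, ‖(yconv σ p z * (Q z : ℂ)) * ch2 lam z‖ ≤ B * Q z := by
    intro z
    rw [norm_mul, norm_mul, ch2_norm, mul_one, Complex.norm_real, Real.norm_of_nonneg (hQ0 z)]
    exact mul_le_mul_of_nonneg_right (hB z) (hQ0 z)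
  refine (norm_conv_le' V V' hVV _ _ hb x).trans (le_of_eq ?_)
  have h1 : ER (fun s => V' s * (B * Q (x - s))) = ER (fun s => V' s * Q (x - s)) * B := by
    rw [← ER_mul_right]
    congr 1
    ext s
    ring
  rw [h1, mean_one hV' hQ (fun k hk hk2 => by omega) x]

end Pool.Agent.H17.CR
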