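import Pool.Agent.H17.CR.Riesz
import Pool.Agent.H67.CM.Gap

/-! The bound of the functions `w_λ` (section 4.2). -/

namespace Pool.Agent.H17.CR

open Finset ComplexConjugate H95.CP

variable {L : ℕ} [NeZero L]

lemma fa_intCast_le (n : ℤ) : fa ((n : ℤ) : ZMod L) ≤ n.natAbs := by
  unfold fa
  refine ZMod.natAbs_min_of_le_div_two L _ _ (by simp) ?_
  have := ZMod.natAbs_valMinAbs_le ((n : ℤ) : ZMod L)
  omega

/-- the nearest point of the lattice of multiples of `8 ^ V` -/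
lemma exists_lattice {V : ℕ} (hV : 8 ^ V ∣ L) (μ : ZMod L) :
    ∃ om : ZMod L, 8 ^ V ∣ fa om ∧ fa (μ + om) ≤ 8 ^ V ∧ fa om ≤ fa μ + 8 ^ V := by
  set v : ℤ := (-μ).valMinAbs with hv
  set r : ℤ := v % (8 ^ V : ℕ) with hr
  have h8 : (0 : ℤ) < (8 ^ V : ℕ) := by positivity
  have hr0 : 0 ≤ r := Int.emod_nonneg _ (by omega)
  have hr1 : r < (8 ^ V : ℕ) := Int.emod_lt_of_pos _ h8
  have hdv : ((8 ^ V : ℕ) : ℤ) ∣ v - r := by
    rw [hr]
    exact Int.dvd_self_sub_emod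
  have hcast : ((v : ℤ) : ZMod L) = -μ := by rw [hv]; simp
  have hsum : μ + (((v - r : ℤ)) : ZMod L) = ((-r : ℤ) : ZMod L) := by
    push_cast
    rw [hcast]
    ring
  have h2 : fa (μ + (((v - r : ℤ)) : ZMod L)) ≤ 8 ^ V := by
    rw [hsum]
    refine (fa_intCast_le _).trans ?_
    have : (-r).natAbs = r.natAbs := Int.natAbs_neg r
    omega
  refine ⟨((v - r : ℤ) : ZMod L), ?_, h2, ?_⟩
  · unfold fa
    have h3 : ((((v - r : ℤ) : ZMod L).valMinAbs : ℤ) : ZMod L) = ((v - r : ℤ) : ZMod L) := by simp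
    rw [ZMod.intCast_eq_intCast_iff_dvd_sub] at h3
    have h4 : ((8 ^ V : ℕ) : ℤ) ∣ (L : ℤ) := by exact_mod_cast hV
    have h5 : ((8 ^ V : ℕ) : ℤ) ∣ ((v - r : ℤ) : ZMod L).valMinAbs := by
      have h6 := h4.trans h3
      have h7 := dvd_sub hdv h6
      rwa [sub_sub_cancel] at h7
    exact Int.natCast_dvd.mp h5
  · have h3 := fa_sub_le (μ + ((v - r : ℤ) : ZMod L)) μ
    rw [add_sub_cancel_left] at h3
    omega

lemma sum_half (i : ℕ) : ∑ k ∈ range (i + 1), (1 : ℝ) / 2 ^ (i - k) ≤ 2 := by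
  have h1 : ∑ k ∈ range (i + 1), (1 : ℝ) / 2 ^ (i - k) = ∑ k ∈ range (i + 1), (1 : ℝ) / 2 ^ k := by
    rw [← Finset.sum_range_reflect]
    refine Finset.sum_congr rfl fun k hk => ?_
    rw [Finset.mem_range] at hk
    have : i - (i + 1 - 1 - k) = k := by omega
    rw [this]
  rw [h1]
  have h2 : ∀ n : ℕ, ∑ k ∈ range n, (1 : ℝ) / 2 ^ k = 2 - 2 / 2 ^ n := by
    intro n
    induction n with
    | zero => simp
    | succ n ih =>
      rw [Finset.sum_range_succ, ih, pow_succ]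
      field_simp
      ring
  rw [h2]
  have : (0 : ℝ) < 2 / 2 ^ (i + 1) := by positivity
  linarith

section

variable {N0 J : ℕ} {lo hi : ℝ} {act : Finset ℕ} {h : ℕ → GG L → ℝ}

/-- the strip of the Riesz product beyond a gap -/
lemma RD.strip (D : RD N0 J lo hi act h) {lo1 hi1 : ℝ} (hK : Leak J lo hi lo1 hi1)
    {i0 i y G : ℕ} (hi0 : i0 ∈ act) (h0i : i0 ≤ i) (hG : i + G ≤ y)
    (hJG : J ≤ G) (hyN : y ≤ N0) {W1 W2 : ℕ} (hW : W1 < W2) (hW2 : W2 ≤ 15 * 8 ^ (N0 - y))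
    (hL : 2 * W2 ≤ L) {om : ZMod L} (hom : fa om ≤ 3 * 8 ^ (N0 - i0) + 8 ^ (N0 - y))
    {T : ℝ} (hT : 0 ≤ T)
    (hadm : ∀ i' ∈ act, i0 ≤ i' → i' ≤ i → ∀ x,
      ‖yconv (fun t => sk W1 W2 om t) (fun x => (Rz h 0 i' x : ℂ) * (h i' x : ℂ)) x‖
        ≤ T / 2 ^ (y - i')) (x : GG L) :
    ‖yconv (fun t => sk W1 W2 om t) (fun x => ((Rz h 0 (i + 1) x - 1 : ℝ) : ℂ)) x‖
      ≤ 2 * T / 2 ^ G := by
  have h1 : (fun x => ((Rz h 0 (i + 1) x - 1 : ℝ) : ℂ))
      = fun x => ∑ j ∈ Ico 0 (i + 1), (Rz h 0 j x : ℂ) * (h j x : ℂ) := by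
    funext x
    rw [rz_tel h (Nat.zero_le _) x]
    push_cast
    rfl
  rw [h1, yconv_sum]
  have hJ1 := D.J1
  have h2 : ∀ j ∈ Ico 0 (i + 1),
      ‖yconv (fun t => sk W1 W2 om t) (fun x => (Rz h 0 j x : ℂ) * (h j x : ℂ)) x‖
        ≤ T / 2 ^ G * (1 / 2 ^ (i - j)) := by
    intro j hj
    rw [Finset.mem_Ico] at hj
    have hpos : 0 ≤ T / 2 ^ G * (1 / 2 ^ (i - j)) := by positivity
    by_cases hja : j ∈ act
    · by_cases hj0 : i0 ≤ j
      · refine (hadm j hja hj0 (by omega) x).trans ?_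
        rw [div_mul_div_comm, mul_one, ← pow_add]
        exact div_le_div_of_nonneg_left hT (by positivity)
          (pow_le_pow_right₀ (by norm_num) (by omega))
      · -- spectrum too high
        have hjJ := D.sep j hja i0 hi0 (by omega)
        have hjN := D.lt j hja
        have hs := D.sp4 hK hjN.le (D.free hja) (D.sp j hja)
        have hz : yconv (fun t => sk W1 W2 om t)
            (fun x => (Rz h 0 j x : ℂ) * (h j x : ℂ)) x = 0 := by
          refine yconv_eq_zero hs (fun k hk => ?_) x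
          obtain ⟨i', hi', hk⟩ := hk
          have hi'j : i' ≤ j := by rcases hi' with h | h <;> omega
          have h3 := hk.2.2.1
          have h4 := hK.lo1
          have h5 : (1 / 2 : ℝ) * 8 ^ (N0 - i') ≤ fa k.2 :=
            le_trans (mul_le_mul_of_nonneg_right h4 (by positivity)) h3
          have h6 : 8 ^ (N0 - i') ≤ 2 * fa k.2 := by
            have : (8 : ℝ) ^ (N0 - i') ≤ 2 * fa k.2 := by linarith
            exact_mod_cast this
          have h7 : 8 ^ (N0 - i0) * 8 ^ 2 ≤ 8 ^ (N0 - i') := by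
            rw [← pow_add]
            exact Nat.pow_le_pow_right (by norm_num) (by omega)
          have h8 : 8 ^ (N0 - y) * 8 ^ 2 ≤ 8 ^ (N0 - i0) := by
            rw [← pow_add]
            exact Nat.pow_le_pow_right (by norm_num) (by omega)
          rw [co_sk hW hL, mu_zero hW]
          · simp
          · have h9 := fa_sub_le (k.2 - om) (-om)
            rw [fa_neg, sub_neg_eq_add, sub_add_cancel] at h9
            omega
        rw [hz, norm_zero]
        exact hpos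
    · have hz : (fun x => (Rz h 0 j x : ℂ) * (h j x : ℂ)) = fun _ => 0 := by
        funext x; rw [D.zero j hja x]; simp
      rw [hz]
      have : yconv (fun t => sk W1 W2 om t) (fun _ : GG L => (0 : ℂ)) x = 0 := by
        unfold yconv; simp
      rw [this, norm_zero]
      exact hpos
  refine (norm_sum_le _ _).trans ((Finset.sum_le_sum h2).trans ?_)
  rw [← Finset.mul_sum, ← Finset.range_eq_Ico]
  have h3 := sum_half i
  calc T / 2 ^ G * ∑ k ∈ range (i + 1), (1 : ℝ) / 2 ^ (i - k) ≤ T / 2 ^ G * 2 :=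
        mul_le_mul_of_nonneg_left h3 (by positivity)
    _ = 2 * T / 2 ^ G := by ring

/-- (4.2) with the gap as data -/
theorem RD.w_bound (D : RD N0 J lo hi act h) {lo1 hi1 : ℝ} (hK : Leak J lo hi lo1 hi1)
    {b : ℕ} (hb : b ≤ N0) (hf : Free act J b)
    {V : GG L → ℂ} {V' : GG L → ℝ} (hV : spc V (fun k => fa k.2 < 3 * 8 ^ (N0 - b)))
    (hVV : ∀ x, ‖V x‖ ≤ V' x)
    (hV' : spc (fun x => (V' x : ℂ)) (fun k => fa k.2 < 3 * 8 ^ (N0 - b)))
    {i0 i y G : ℕ} (hi0 : i0 ∈ act) (h0i : i0 ≤ i) (hy : y ∈ act ∨ y = b)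
    (hyb : y ≤ b) (hG : i + G ≤ y) (hJG : J ≤ G)
    (hgap : ∀ z ∈ act, z < b → z ≤ i ∨ y ≤ z)
    {lam : GG L} (hlam1 : lo1 * 8 ^ (N0 - i0) ≤ fa lam.2)
    (hlam2 : (fa lam.2 : ℝ) ≤ hi1 * 8 ^ (N0 - i0))
    {om : ZMod L} (hom : fa (lam.2 + om) ≤ 8 ^ (N0 - y)) (hL : 30 * 8 ^ (N0 - y) ≤ L)
    {T : ℝ} (hT : 0 ≤ T)
    (hadm : ∀ i' ∈ act, i0 ≤ i' → i' ≤ i → ∀ x,
      ‖yconv (fun t => sk (5 * 8 ^ (N0 - y)) (15 * 8 ^ (N0 - y)) om t)
        (fun x => (Rz h 0 i' x : ℂ) * (h i' x : ℂ)) x‖ ≤ T / 2 ^ (y - i')) (x : GG L) :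
    ‖conv V (fun x => ((Rz h 0 b x - 1 : ℝ) : ℂ) * ch2 lam x) x‖ ≤ ER V' * (2 * T / 2 ^ G) := by
  have hJ1 := D.J1
  have hyN : y ≤ N0 := hyb.trans hb
  have h8 : 0 < 8 ^ (N0 - y) := by positivity
  have hW : 5 * 8 ^ (N0 - y) < 15 * 8 ^ (N0 - y) := by omega
  -- sizes
  have h8b : 8 ^ (N0 - b) ≤ 8 ^ (N0 - y) := Nat.pow_le_pow_right (by norm_num) (by omega)
  have hR : 3 * 8 ^ (N0 - b) + (4 * 8 ^ (N0 - y) - 3 * 8 ^ (N0 - b)) = 4 * 8 ^ (N0 - y) := by
    omega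
  have h8i : 8 ^ (N0 - y) * 8 ^ 2 ≤ 8 ^ (N0 - i0) := by
    rw [← pow_add]
    have := D.lt i0 hi0
    exact Nat.pow_le_pow_right (by norm_num) (by omega)
  have hl1 : 8 ^ (N0 - i0) ≤ 2 * fa lam.2 := by
    have h4 := hK.lo1
    have h5 : (1 / 2 : ℝ) * 8 ^ (N0 - i0) ≤ fa lam.2 :=
      le_trans (mul_le_mul_of_nonneg_right h4 (by positivity)) hlam1
    have : (8 : ℝ) ^ (N0 - i0) ≤ 2 * fa lam.2 := by linarith
    exact_mod_cast this
  have hl2 : fa lam.2 ≤ 3 * 8 ^ (N0 - i0) := by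
    have h4 := hK.hi1
    have h5 : (fa lam.2 : ℝ) ≤ 3 * 8 ^ (N0 - i0) :=
      hlam2.trans (mul_le_mul_of_nonneg_right h4 (by positivity))
    exact_mod_cast h5
  have hprod : ∀ x, Rz h 0 b x = Rz h 0 (i + 1) x * Rz h y b x := by
    intro x
    have h1 := rz_mul h (Nat.zero_le (i + 1)) (by omega : i + 1 ≤ b) x
    have h2 := rz_mul h (by omega : i + 1 ≤ y) hyb x
    have h3 : Rz h (i + 1) y x = 1 := by
      refine rz_one (fun j h1 h2 x => D.zero j (fun hj => ?_) x) x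
      rcases hgap j hj (by omega) with h | h <;> omega
    rw [h3, one_mul] at h2
    rw [← h1, ← h2]
  have hgoal : (fun x => ((Rz h 0 b x - 1 : ℝ) : ℂ) * ch2 lam x)
      = fun x => ((Rz h 0 (i + 1) x * Rz h y b x - 1 : ℝ) : ℂ) * ch2 lam x := by
    funext x; rw [hprod x]
  rw [hgoal]
  refine strip_bound (W := 3 * 8 ^ (N0 - b)) (R := 4 * 8 ^ (N0 - y) - 3 * 8 ^ (N0 - b))
    (σ := fun t => sk (5 * 8 ^ (N0 - y)) (15 * 8 ^ (N0 - y)) om t)
    hV hVV hV' (fun x => rz_nonneg D.le y b x) ?_ ?_ ?_ ?_ x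
  · -- spectrum of Q - 1
    rcases hy with hya | hyb'
    · by_cases hyb2 : y = b
      · have : (fun x => ((Rz h y b x - 1 : ℝ) : ℂ)) = fun _ => 0 := by
          funext x; rw [hyb2, rz_self]; simp
        rw [this]
        exact spc_zero _
      · have h1 := D.sp3 hyb hb hf
        have h2 := D.sp2 hyb hb
        have h3 := spc_add h2 (spc_const_mul (-1) (spc_one (L := L)))
        have h4 : (fun x => (Rz h y b x : ℂ) + (-1) * 1)
            = fun x => ((Rz h y b x - 1 : ℝ) : ℂ) := by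
          funext x; push_cast; ring
        rw [h4] at h3
        intro k hk
        constructor
        · obtain ⟨i', hi', hyi', hib', hk'⟩ := h1 k hk
          have h5 := (nr_ge hK D.hi0 D.hi3 hk').1
          have h6 : (1 / 2 : ℝ) * 8 ^ (N0 - i') ≤ fa k.2 :=
            le_trans (mul_le_mul_of_nonneg_right hK.lo1 (by positivity)) h5
          have h7 : 8 ^ (N0 - i') ≤ 2 * fa k.2 := by
            have : (8 : ℝ) ^ (N0 - i') ≤ 2 * fa k.2 := by linarith
            exact_mod_cast this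
          have h8 := hf i' hi' hib'
          have h9 : 8 ^ (N0 - b) * 8 ^ 2 ≤ 8 ^ (N0 - i') := by
            rw [← pow_add]
            exact Nat.pow_le_pow_right (by norm_num) (by omega)
          omega
        · have h5 : (fa k.2 : ℝ) ≤ 4 * 8 ^ (N0 - y) - 3 * 8 ^ (N0 - b) := by
            have hp1 : (0 : ℝ) < 8 ^ (N0 - y) := by positivity
            have hp2 : (0 : ℝ) < 8 ^ (N0 - b) := by positivity
            have hp3 : (8 : ℝ) ^ (N0 - b) ≤ 8 ^ (N0 - y) := by exact_mod_cast h8b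
            rcases h3 k hk with h5 | h5
            · refine h5.trans ?_
              have h6 := D.hi3
              have h7 : 8 * hi / 7 * ((8 : ℝ) ^ (N0 - y) - 8 ^ (N0 - b))
                  ≤ 24 / 7 * ((8 : ℝ) ^ (N0 - y) - 8 ^ (N0 - b)) :=
                mul_le_mul_of_nonneg_right (by linarith) (by linarith)
              linarith
            · rw [h5]
              simp only [Prod.snd_zero, fa_zero, Nat.cast_zero]
              linarith
          have h6 : fa k.2 + 3 * 8 ^ (N0 - b) ≤ 4 * 8 ^ (N0 - y) := by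
            have : (fa k.2 : ℝ) + 3 * 8 ^ (N0 - b) ≤ 4 * 8 ^ (N0 - y) := by linarith
            exact_mod_cast this
          omega
    · have : (fun x => ((Rz h y b x - 1 : ℝ) : ℂ)) = fun _ => 0 := by
        funext x; rw [hyb', rz_self]; simp
      rw [this]
      exact spc_zero _
  · -- multiplier
    intro j hj
    rw [hR] at hj
    rw [co_sk hW (by omega), mu_one hW]
    · simp
    · have h9 := fa_sub_le (j + lam.2) (lam.2 + om)
      have e : j + lam.2 - (lam.2 + om) = j - om := by ring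
      rw [e] at h9
      omega
  · rw [hR]
    omega
  · intro x
    refine D.strip hK hi0 h0i hG hJG hyN hW le_rfl (by omega) ?_ hT hadm x
    have h9 := fa_sub_le (lam.2 + om) lam.2
    rw [add_sub_cancel_left] at h9
    omega

/-- the strip condition on the factors: `Bd d` bounds the strips at distance `d` -/
def StripBd (N0 J : ℕ) (T : ℝ) (act : Finset ℕ) (h : ℕ → GG L → ℝ) (b : ℕ) : Prop :=
  ∀ i ∈ act, i < b → ∀ V d, V + d = N0 - i → J ≤ d → ∀ om : ZMod L, 8 ^ V ∣ fa om →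
    fa om ≤ 8 ^ (V + d + 2 ^ (d / 60)) → ∀ x,
      ‖yconv (fun t => sk (5 * 8 ^ V) (15 * 8 ^ V) om t)
        (fun x => (Rz h 0 i x : ℂ) * (h i x : ℂ)) x‖ ≤ T / 2 ^ d

/-- (4.2): the bound of `w_λ` for all far `λ`; `D = b - i0` is the distance. -/
theorem RD.w_all (D : RD N0 J lo hi act h) {lo1 hi1 : ℝ} (hK : Leak J lo hi lo1 hi1)
    {b : ℕ} (hb : b ≤ N0) (hf : Free act J b)
    {V : GG L → ℂ} {V' : GG L → ℝ} (hV : spc V (fun k => fa k.2 < 3 * 8 ^ (N0 - b)))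
    (hVV : ∀ x, ‖V x‖ ≤ V' x)
    (hV' : spc (fun x => (V' x : ℂ)) (fun k => fa k.2 < 3 * 8 ^ (N0 - b)))
    {l0 M : ℕ} (hbM : b ≤ M) (hl0 : 10 ≤ l0) (hJ : 60 * (l0 + 1) ≤ J)
    (hal : ∀ x ∈ act, x < b → H67.CM.Allowed l0 M x)
    {T : ℝ} (hT : 0 ≤ T) (hadm : StripBd N0 J T act h b)
    {i0 : ℕ} (hi0 : i0 ∈ act) (hi0b : i0 < b)
    (hL1 : 30 * 8 ^ (N0 - (i0 + J)) ≤ L) (hL2 : ∀ V, V ≤ N0 - (i0 + J) → 8 ^ V ∣ L)
    {lam : GG L} (hlam1 : lo1 * 8 ^ (N0 - i0) ≤ fa lam.2)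
    (hlam2 : (fa lam.2 : ℝ) ≤ hi1 * 8 ^ (N0 - i0)) (x : GG L) :
    ‖conv V (fun x => ((Rz h 0 b x - 1 : ℝ) : ℂ) * ch2 lam x) x‖
      ≤ ER V' * (2 * T / 2 ^ (H67.CM.gapLen J (b - i0))) := by
  classical
  obtain ⟨i, hiS, h0i, y, hy, hG, hgap⟩ := H67.CM.gap (act.filter (· < b)) b i0 J l0 M
    (by simp [hi0, hi0b]) hbM
    (fun x hx => by rw [mem_filter] at hx; exact hf x hx.1 hx.2)
    (fun x hx y hy hxy => by
      rw [mem_filter] at hx hy; exact D.sep x hx.1 y hy.1 hxy)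
    (fun x hx => by rw [mem_filter] at hx; exact hal x hx.1 hx.2) hl0 hJ
  rw [mem_filter] at hiS
  have hJG : J ≤ H67.CM.gapLen J (b - i0) := le_max_left _ _
  have hJ2 := D.J1
  have hyb : y ≤ b := by
    rcases hy with hy | hy
    · rw [mem_filter] at hy; omega
    · omega
  have hyN : y ≤ N0 := hyb.trans hb
  have hyJ : N0 - y ≤ N0 - (i0 + J) := by omega
  obtain ⟨om, hom1, hom2, hom3⟩ := exists_lattice (hL2 _ hyJ) lam.2
  have hl2 : fa lam.2 ≤ 3 * 8 ^ (N0 - i0) := by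
    have h4 := hK.hi1
    have h5 : (fa lam.2 : ℝ) ≤ 3 * 8 ^ (N0 - i0) :=
      hlam2.trans (mul_le_mul_of_nonneg_right h4 (by positivity))
    exact_mod_cast h5
  have hL3 : 30 * 8 ^ (N0 - y) ≤ L :=
    le_trans (Nat.mul_le_mul_left _ (Nat.pow_le_pow_right (by norm_num) hyJ)) hL1
  refine D.w_bound hK hb hf hV hVV hV' hi0 h0i (y := y) ?_ hyb hG hJG ?_ hlam1 hlam2 hom2 hL3 hT
    ?_ x
  · rcases hy with hy | hy
    · rw [mem_filter] at hy; exact Or.inl hy.1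
    · exact Or.inr hy
  · intro z hz hzb
    exact hgap z (by rw [mem_filter]; exact ⟨hz, hzb⟩)
  · intro i' hi' h0i' hi'i x
    have hi'N := D.lt i' hi'
    refine hadm i' hi' (by omega) (N0 - y) (y - i') (by omega) (by omega) om hom1 ?_ x
    -- the range of the lattice
    have h1 : fa om ≤ 8 ^ (N0 - i0 + 1) := by
      have : 8 ^ (N0 - y) ≤ 8 ^ (N0 - i0) := Nat.pow_le_pow_right (by norm_num) (by omega)
      rw [pow_succ]
      omega
    refine h1.trans (Nat.pow_le_pow_right (by norm_num) ?_)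
    have h2 : 60 * (Nat.log 2 (b - i0) + 1) ≤ y - i' := by
      have : 60 * (Nat.log 2 (b - i0) + 1) ≤ H67.CM.gapLen J (b - i0) := le_max_right _ _
      omega
    have h3 : Nat.log 2 (b - i0) + 1 ≤ (y - i') / 60 := by omega
    have h4 : b - i0 < 2 ^ (Nat.log 2 (b - i0) + 1) := Nat.lt_pow_succ_log_self (by norm_num) _
    have h5 : 2 ^ (Nat.log 2 (b - i0) + 1) ≤ 2 ^ ((y - i') / 60) :=
      Nat.pow_le_pow_right (by norm_num) h3
    omega

end

end Pool.Agent.H17.CR
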